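import Mathlib
import Pool.Agent.Lib.MP_44a246_ntSH.P5

/-!
# Normal crossings pairs: transfer from the algebraic closure to larger algebraically closed fields
-/

namespace Pool.Agent.Lib.MP_44a246_ntNC

open Pool.Agent.Lib.MP_e52354_nt
open MvPolynomial

/-- a system of equations with a solution in some extension field has a solution in every
algebraically closed extension field -/
theorem exists_common_zero {K Ω F σ τ : Type*} [Field K] [Field Ω] [IsAlgClosed Ω] [Algebra K Ω]
    [Field F] [Algebra K F] [Finite σ] (P : τ → MvPolynomial σ K) (z : σ → F)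
    (hz : ∀ t, aeval z (P t) = 0) : ∃ z' : σ → Ω, ∀ t, aeval z' (P t) = 0 := by
  classical
  have hker : RingHom.ker (aeval z : MvPolynomial σ K →ₐ[K] F) ≠ ⊤ := RingHom.ker_ne_top _
  obtain ⟨m, hm, hle⟩ := Ideal.exists_le_maximal _ hker
  let A := MvPolynomial σ K ⧸ m
  let iF : Field A := Ideal.Quotient.field m
  have hft : Algebra.FiniteType K A :=
    Algebra.FiniteType.of_surjective (Ideal.Quotient.mkₐ K m) (Ideal.Quotient.mkₐ_surjective K m)
  have hfin : Module.Finite K A := finite_of_finite_type_of_isJacobsonRing K A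
  have halg : Algebra.IsAlgebraic K A := Algebra.IsAlgebraic.of_finite K A
  let φ : A →ₐ[K] Ω := IsAlgClosed.lift
  refine ⟨fun s => φ (Ideal.Quotient.mkₐ K m (X s)), fun t => ?_⟩
  have h1 : aeval (fun s => φ (Ideal.Quotient.mkₐ K m (X s))) (P t) =
      φ (Ideal.Quotient.mkₐ K m (P t)) := by
    have h2 : (aeval (fun s => φ (Ideal.Quotient.mkₐ K m (X s))) : MvPolynomial σ K →ₐ[K] Ω) =
        φ.comp (Ideal.Quotient.mkₐ K m) := by
      refine MvPolynomial.algHom_ext fun s => ?_
      rw [aeval_X]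
      rfl
    rw [h2]
    rfl
  rw [h1]
  have h3 : Ideal.Quotient.mkₐ K m (P t) = 0 := by
    rw [Ideal.Quotient.mkₐ_eq_mk, Ideal.Quotient.eq_zero_iff_mem]
    exact hle (hz t)
  rw [h3, map_zero]

/-- The forms `F i` and `H j` are in normal crossings: at every common zero (over an extension
field `A`) of the `F i` and of some of the `H j` the gradients of these forms are independent. -/
def NCAt {K : Type*} [Field K] {N : ℕ} {ι Λ : Type*} (F : ι → MvPolynomial (Fin N) K)
    (H : Λ → MvPolynomial (Fin N) K) (A : Type*) [Field A] [Algebra K A] : Prop :=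
  ∀ (J : Finset Λ) (z : Fin N → A), z ≠ 0 → (∀ i, aeval z (F i) = 0) →
    (∀ j ∈ J, aeval z (H j) = 0) → LinearIndependent A
      (Sum.elim (fun i l => aeval z (pderiv l (F i))) (fun (j : J) l => aeval z (pderiv l (H j))))

/-- scaling of the values of a form -/
theorem aeval_smul_form {K A : Type*} [Field K] [Field A] [Algebra K A] {N d : ℕ}
    {P : MvPolynomial (Fin N) K} (hP : P.IsHomogeneous d) (c : A) (z : Fin N → A) :
    aeval (fun l => c * z l) P = c ^ d * aeval z P := by
  classical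
  rw [aeval_def, aeval_def, eval₂_eq', eval₂_eq', Finset.mul_sum]
  refine Finset.sum_congr rfl fun I hI => ?_
  have h1 : I.degree = d := by
    have h2 := hP (mem_support_iff.1 hI)
    rw [← h2, Finsupp.degree_eq_weight_one]
    rfl
  have h3 : ∏ i, (c * z i) ^ I i = c ^ d * ∏ i, z i ^ I i := by
    simp only [mul_pow]
    rw [Finset.prod_mul_distrib, Finset.prod_pow_eq_pow_sum, ← h1, Finsupp.degree_eq_sum]
  rw [h3]
  ring

/-- **The transfer.** -/
theorem NCAt.transfer {K Ω F' : Type*} [Field K] [Field Ω] [IsAlgClosed Ω] [Algebra K Ω]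
    [Field F'] [Algebra K F'] {N : ℕ} {ι Λ : Type*} [Finite ι] {F : ι → MvPolynomial (Fin N) K}
    {H : Λ → MvPolynomial (Fin N) K} {e : ι → ℕ} {d : Λ → ℕ}
    (hF : ∀ i, (F i).IsHomogeneous (e i)) (hH : ∀ j, (H j).IsHomogeneous (d j))
    (h : NCAt F H Ω) : NCAt F H F' := by
  classical
  have := Fintype.ofFinite ι
  intro J z hz hFz hHz
  by_contra hli
  obtain ⟨l, hl⟩ : ∃ l, z l ≠ 0 := by
    by_contra hcon
    push Not at hcon
    exact hz (funext hcon)
  rw [Fintype.not_linearIndependent_iff] at hli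
  obtain ⟨g, hg, c, hc⟩ := hli
  -- the degrees of the gradients
  let D : ι ⊕ J → ℕ := Sum.elim e (fun j : J => d j)
  let Φ : ι ⊕ J → MvPolynomial (Fin N) K := Sum.elim F (fun j : J => H j)
  have hΦ : ∀ s, (Φ s).IsHomogeneous (D s) := by
    rintro (i | j)
    · exact hF i
    · exact hH j
  have hΦz : ∀ s, aeval z (Φ s) = 0 := by
    rintro (i | j)
    · exact hFz i
    · exact hHz j j.2
  have hgr : ∀ k, ∑ s, g s * aeval z (pderiv k (Φ s)) = 0 := by
    intro k
    have h1 := congrFun hg k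
    rw [Finset.sum_apply, Pi.zero_apply] at h1
    rw [← h1]
    refine Finset.sum_congr rfl fun s _ => ?_
    rcases s with i | j <;> rfl
  have hpd : ∀ s k, (pderiv k (Φ s)).IsHomogeneous (D s - 1) := fun s k => (hΦ s).pderiv
  -- the scaled point and the scaled multipliers
  obtain ⟨v, hv⟩ : ∃ v : Fin N → F', v = fun k => (z l)⁻¹ * z k := ⟨_, rfl⟩
  have hvl : v l = 1 := by rw [hv]; exact inv_mul_cancel₀ hl
  have hΦv : ∀ s, aeval v (Φ s) = 0 := by
    intro s
    rw [hv, aeval_smul_form (hΦ s), hΦz s, mul_zero]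
  obtain ⟨m, hm⟩ : ∃ m : ι ⊕ J → F', m = fun s => (g c * z l ^ (D c - 1))⁻¹ *
      (g s * z l ^ (D s - 1)) := ⟨_, rfl⟩
  have hmc : m c = 1 := by
    rw [hm]
    exact inv_mul_cancel₀ (mul_ne_zero hc (pow_ne_zero _ hl))
  have hmv : ∀ k, ∑ s, m s * aeval v (pderiv k (Φ s)) = 0 := by
    intro k
    have h1 : ∀ s, m s * aeval v (pderiv k (Φ s)) =
        (g c * z l ^ (D c - 1))⁻¹ * (g s * aeval z (pderiv k (Φ s))) := by
      intro s
      rw [hv, aeval_smul_form (hpd s k), hm]
      have h2 : z l ^ (D s - 1) * (z l)⁻¹ ^ (D s - 1) = 1 := by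
        rw [← mul_pow, mul_inv_cancel₀ hl, one_pow]
      calc (g c * z l ^ (D c - 1))⁻¹ * (g s * z l ^ (D s - 1)) *
            ((z l)⁻¹ ^ (D s - 1) * aeval z (pderiv k (Φ s))) =
          (g c * z l ^ (D c - 1))⁻¹ * (g s * aeval z (pderiv k (Φ s))) *
            (z l ^ (D s - 1) * (z l)⁻¹ ^ (D s - 1)) := by ring
        _ = _ := by rw [h2, mul_one]
    rw [Finset.sum_congr rfl fun s _ => h1 s, ← Finset.mul_sum, hgr k, mul_zero]
  -- the system
  let inj : MvPolynomial (Fin N) K →ₐ[K] MvPolynomial (Fin N ⊕ (ι ⊕ J)) K := rename Sum.inl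
  let P : ((ι ⊕ J) ⊕ Fin N) ⊕ Bool → MvPolynomial (Fin N ⊕ (ι ⊕ J)) K :=
    Sum.elim (Sum.elim (fun s => inj (Φ s))
      (fun k => ∑ s, X (Sum.inr s) * inj (pderiv k (Φ s))))
      (fun b => if b then X (Sum.inl l) - 1 else X (Sum.inr c) - 1)
  have hinj : ∀ (y : Fin N ⊕ (ι ⊕ J) → F')
      (Q : MvPolynomial (Fin N) K), aeval y (inj Q) = aeval (fun k => y (Sum.inl k)) Q :=
    fun y Q => aeval_rename _ _ _
  have hinj' : ∀ (y : Fin N ⊕ (ι ⊕ J) → Ω)
      (Q : MvPolynomial (Fin N) K), aeval y (inj Q) = aeval (fun k => y (Sum.inl k)) Q :=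
    fun y Q => aeval_rename _ _ _
  obtain ⟨y, hy⟩ := exists_common_zero (Ω := Ω) P (Sum.elim v m : Fin N ⊕ (ι ⊕ J) → F') (by
    rintro ((s | k) | b)
    · show aeval _ (inj (Φ s)) = 0
      rw [hinj]
      exact hΦv s
    · show aeval _ (∑ s, X (Sum.inr s) * inj (pderiv k (Φ s))) = 0
      rw [map_sum, ← hmv k]
      refine Finset.sum_congr rfl fun s _ => ?_
      rw [map_mul, aeval_X, hinj]
      rfl
    · show aeval _ (if b then X (Sum.inl l) - 1 else X (Sum.inr c) - 1) = 0
      cases b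
      · rw [if_neg (by simp), map_sub, aeval_X, map_one, Sum.elim_inr, hmc, sub_self]
      · rw [if_pos rfl, map_sub, aeval_X, map_one, Sum.elim_inl, hvl, sub_self])
  -- the contradiction
  have hy1 : y (Sum.inl l) = 1 := by
    have h1 := hy (Sum.inr true)
    change aeval y (if (true : Bool) = true then X (Sum.inl l) - 1 else X (Sum.inr c) - 1) = 0 at h1
    rw [if_pos rfl, map_sub, aeval_X, map_one] at h1
    exact sub_eq_zero.1 h1
  have hy2 : y (Sum.inr c) = 1 := by
    have h1 := hy (Sum.inr false)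
    change aeval y (if (false : Bool) = true then X (Sum.inl l) - 1 else X (Sum.inr c) - 1) = 0
      at h1
    rw [if_neg (by simp), map_sub, aeval_X, map_one] at h1
    exact sub_eq_zero.1 h1
  have hy3 : ∀ s, aeval (fun k => y (Sum.inl k)) (Φ s) = 0 := by
    intro s
    rw [← hinj']
    exact hy (Sum.inl (Sum.inl s))
  have hy4 : ∀ k, ∑ s, y (Sum.inr s) * aeval (fun k => y (Sum.inl k)) (pderiv k (Φ s)) = 0 := by
    intro k
    have h1 := hy (Sum.inl (Sum.inr k))
    change aeval y (∑ s, X (Sum.inr s) * inj (pderiv k (Φ s))) = 0 at h1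
    rw [map_sum] at h1
    rw [← h1]
    refine Finset.sum_congr rfl fun s _ => ?_
    rw [map_mul, aeval_X, hinj']
  have hli := h J (fun k => y (Sum.inl k)) (fun h0 => by
    have h1 := congrFun h0 l
    rw [hy1] at h1
    exact one_ne_zero h1) (fun i => hy3 (Sum.inl i)) (fun j hj => hy3 (Sum.inr ⟨j, hj⟩))
  rw [Fintype.linearIndependent_iff] at hli
  have h2 := hli (fun s => y (Sum.inr s)) (by
    funext k
    rw [Finset.sum_apply, Pi.zero_apply, ← hy4 k]
    refine Finset.sum_congr rfl fun s _ => ?_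
    rcases s with i | j <;> rfl) c
  rw [hy2] at h2
  exact one_ne_zero h2

end Pool.Agent.Lib.MP_44a246_ntNC
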