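import Mathlib
import Pool.Agent.Lib.MP_44a246_ntUV.UV8a
import Pool.Agent.Lib.MP_44a246_ntN.NullG
import Pool.Agent.Lib.MP_44a246_ntSH.AC01
import Pool.Agent.Lib.MP_44a246_ntSH.PJ02
import Pool.Agent.Lib.MP_44a246_ntNC.NC01

/-!
# Curves of small height through a sequence of points: the limit equations
-/

namespace Pool.Agent.Lib.MP_44a246_ntNC

open Pool.Agent.Lib.MP_e52354_nt
open Pool.Agent.Lib.MP_44a246_nt
open Pool.Agent.Lib.MP_44a246_ntL
open Pool.Agent.Lib.MP_44a246_ntSH
open Pool.Agent.Lib.MP_44a246_ntSF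
open Pool.Agent.Lib.MP_44a246_ntUV
open WithZero Module MvPolynomial

/-- the height of the quotients of the coefficients of a polynomial -/
theorem height_coeff_le {κ L σ : Type*} [Field κ] [IsAlgClosed κ] [CharZero κ] [Field L]
    [Algebra κ L] (h : IsFF κ L) {A : MvPolynomial σ L} {I : σ →₀ ℕ} (hI : A.coeff I ≠ 0)
    (J : σ →₀ ℕ) : height κ ![1, A.coeff J / A.coeff I] ≤ polyHeight κ A := by
  classical
  rw [polyHeight_eq_height, ← h.height_smul hI]
  have h1 : (fun i => A.coeff I * (![1, A.coeff J / A.coeff I] : Fin 2 → L) i) =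
      ![A.coeff I, A.coeff J] := by
    funext i
    fin_cases i
    · exact mul_one _
    · exact mul_div_cancel₀ _ hI
  rw [h1]
  have hne1 : (![A.coeff I, A.coeff J] : Fin 2 → L) ≠ 0 := fun h0 => hI (congrFun h0 0)
  have hne2 : (fun I : A.support => A.coeff I.1) ≠ 0 := fun h0 =>
    hI (congrFun h0 ⟨I, mem_support_iff.2 hI⟩)
  have hs : ∀ {σ' : Type _} [Fintype σ'] {y : σ' → L}, y ≠ 0 →
      (Function.support fun v : Place κ L => log (vmax v.1 y)).Finite := by
    intro σ' _ y hy
    refine (h.vmax_finite hy).subset fun v hv => ?_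
    intro h2
    apply hv
    simp only
    rw [h2, log_one]
  have hs' : (Function.support fun v : Place κ L =>
      log (vmax v.1 (![A.coeff I, A.coeff J] : Fin 2 → L))).Finite := by
    refine (h.vmax_finite hne1).subset fun v hv => ?_
    intro h2
    apply hv
    simp only
    rw [h2, log_one]
  refine finsum_mono hs' (hs hne2) fun v => ?_
  have hv0 : vmax v.1 (![A.coeff I, A.coeff J] : Fin 2 → L) ≠ 0 := fun h2 =>
    hne1 ((vmax_eq_zero_iff v.1).1 h2)
  have hv1 : vmax v.1 (fun I : A.support => A.coeff I.1) ≠ 0 := fun h2 =>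
    hne2 ((vmax_eq_zero_iff v.1).1 h2)
  refine (log_le_log hv0 hv1).2 (vmax_le v.1 fun i => ?_)
  have h3 : ∀ J', v.1 (A.coeff J') ≤ vmax v.1 (fun I : A.support => A.coeff I.1) := by
    intro J'
    by_cases hJ : A.coeff J' = 0
    · rw [hJ, map_zero]
      exact zero_le
    · exact le_vmax v.1 (fun I : A.support => A.coeff I.1) ⟨J', mem_support_iff.2 hJ⟩
  fin_cases i
  · exact h3 I
  · exact h3 J

/-- a sequence of polynomials of bounded degree is a polynomial over the ring of the sequences -/
theorem exists_seq_poly {Ω : Type*} [Field Ω] {m b : ℕ} (g : ℕ → MvPolynomial (Fin m) Ω)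
    (hg : ∀ N, (g N).totalDegree ≤ b) :
    ∃ P : MvPolynomial (Fin m) (ℕ → Ω), (∀ I N, P.coeff I N = (g N).coeff I) ∧
      ∀ N, P.map (Pi.evalRingHom (fun _ => Ω) N) = g N := by
  classical
  obtain ⟨P, hP⟩ : ∃ P : MvPolynomial (Fin m) (ℕ → Ω), P =
      ∑ I ∈ (Finset.range (b + 1)).biUnion (expo (Fin m)), monomial I (fun N => (g N).coeff I) :=
    ⟨_, rfl⟩
  have hc : ∀ I N, P.coeff I N = (g N).coeff I := by
    intro I N
    rw [hP, coeff_sum]
    simp only [coeff_monomial]
    rw [Finset.sum_ite_eq']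
    split_ifs with hI
    · rfl
    · symm
      rw [Pi.zero_apply]
      by_contra h0
      apply hI
      rw [Finset.mem_biUnion]
      refine ⟨I.degree, ?_, mem_expo.2 rfl⟩
      rw [Finset.mem_range, Nat.lt_succ_iff]
      refine le_trans ?_ (hg N)
      exact le_totalDegree (mem_support_iff.2 h0)
  refine ⟨P, hc, fun N => ?_⟩
  ext I
  rw [coeff_map]
  exact hc I N

/-- the value of a polynomial over the sequences at a germ -/
theorem eval_map_germ {Ω : Type*} [Field Ω] {m : ℕ} (P : MvPolynomial (Fin m) (ℕ → Ω))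
    (z : ℕ → Fin m → Ω) : eval (fun s => germHom (fun N => z N s)) (P.map germHom) =
      germHom (fun N => eval (z N) (P.map (Pi.evalRingHom (fun _ => Ω) N))) := by
  induction P using MvPolynomial.induction_on with
  | C a =>
    rw [map_C, eval_C]
    congr 1
    funext N
    rw [map_C, eval_C]
    rfl
  | add P Q hP hQ =>
    rw [map_add, map_add, hP, hQ, ← map_add]
    congr 1
    funext N
    rw [map_add, map_add]
    rfl
  | mul_X P s hP =>
    rw [map_mul, map_mul, map_X, eval_X, hP, ← map_mul]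
    congr 1
    funext N
    rw [map_mul, map_mul, map_X, eval_X]
    rfl

end Pool.Agent.Lib.MP_44a246_ntNC
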