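import Mathlib
import Pool.Agent.Lib.MP_44a246_ntNC.NC02

/-!
# Germs of sequences of forms of small height
-/

namespace Pool.Agent.Lib.MP_44a246_ntNC

open Pool.Agent.Lib.MP_e52354_nt
open Pool.Agent.Lib.MP_44a246_nt
open Pool.Agent.Lib.MP_44a246_ntL
open Pool.Agent.Lib.MP_44a246_ntSH
open Pool.Agent.Lib.MP_44a246_ntSF
open Pool.Agent.Lib.MP_44a246_ntUV
open WithZero Module MvPolynomial

/-- a polynomial with coefficients in a subfield -/
theorem exists_map_eq {F U σ : Type*} [Field F] [Field U] [Algebra F U] {A : MvPolynomial σ U}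
    (h : ∀ I, A.coeff I ∈ Set.range (algebraMap F U)) :
    ∃ B : MvPolynomial σ F, B.map (algebraMap F U) = A := by
  classical
  choose c hc using h
  refine ⟨∑ I ∈ A.support, monomial I (c I), ?_⟩
  rw [map_sum]
  conv_rhs => rw [A.as_sum]
  refine Finset.sum_congr rfl fun I _ => ?_
  rw [map_monomial, hc]

/-- rows with a nonzero minor are independent -/
theorem li_of_minor {U R C : Type*} [Field U] [Fintype R] [DecidableEq R] (A : R → C → U)
    (c : R → C) (h : (Matrix.of fun r r' => A r (c r')).det ≠ 0) : LinearIndependent U A := by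
  have h1 : LinearIndependent U (Matrix.of fun r r' => A r (c r')).row := by
    rw [Matrix.linearIndependent_rows_iff_isUnit, Matrix.isUnit_iff_isUnit_det]
    exact isUnit_iff_ne_zero.2 h
  exact LinearIndependent.of_comp (LinearMap.funLeft U U c) h1

/-- the homogeneous polynomials and Euler's formula -/
theorem euler_form {L : Type*} [Field L] {m d : ℕ} {P : MvPolynomial (Fin m) L}
    (hP : P.IsHomogeneous d) (z : Fin m → L) :
    ∑ k, z k * eval z (pderiv k P) = d * eval z P := by
  have h1 := hP.sum_X_mul_pderiv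
  have h2 := congrArg (eval z) h1
  rw [map_sum] at h2
  simp only [map_mul, eval_X, nsmul_eq_mul, map_natCast] at h2
  exact h2

/-- the rows of germs are independent if the rows are independent -/
theorem li_germ {Ω R C : Type*} [Field Ω] [Fintype R] [DecidableEq R] [Fintype C]
    (A : ℕ → R → C → Ω)
    (h : ∀ᶠ N in (Filter.hyperfilter ℕ : Filter ℕ), LinearIndependent Ω (A N)) :
    LinearIndependent (UP Ω) (fun r c => germHom (fun N => A N r c)) := by
  classical
  obtain ⟨c, hc⟩ : ∃ c : R → C, ∀ᶠ N in (Filter.hyperfilter ℕ : Filter ℕ),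
      (Matrix.of fun r r' => A N r (c r')).det ≠ 0 := by
    by_contra hcon
    push Not at hcon
    have h1 : ∀ᶠ N in (Filter.hyperfilter ℕ : Filter ℕ), ∀ c : R → C,
        ¬ (Matrix.of fun r r' => A N r (c r')).det ≠ 0 := by
      rw [Filter.eventually_all]
      intro c
      exact (hcon c).mono fun N hN => not_not.2 hN
    obtain ⟨N, hN, hN2⟩ := (h1.and h).exists
    obtain ⟨c, hc⟩ := Pool.Agent.Lib.MP_44a246_ntN.exists_minor _ hN2
    exact hN c hc
  refine li_of_minor _ c fun h0 => ?_
  have h2 : (Matrix.of fun r r' => germHom (fun N => A N r (c r'))).det =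
      germHom (fun N => (Matrix.of fun r r' => A N r (c r')).det) :=
    det_germ (fun N => Matrix.of fun r r' => A N r (c r'))
  rw [h2, germHom_eq_zero_iff] at h0
  obtain ⟨N, hN1, hN2⟩ := (hc.and h0).exists
  exact hN1 hN2

section

variable {κ K Ω : Type*} [Field κ] [IsAlgClosed κ] [CharZero κ]
  [Field K] [Algebra κ K] [Field Ω] [Algebra K Ω] [Algebra κ Ω] [IsScalarTower κ K Ω]

/-- `G` is the germ of the sequence `q` of polynomials -/
def GermOf (W : Tow κ K Ω) {m : ℕ} (G : MvPolynomial (Fin m) W.F0)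
    (q : ℕ → MvPolynomial (Fin m) Ω) : Prop :=
  ∃ P : MvPolynomial (Fin m) (ℕ → Ω), G.map (algebraMap W.F0 (UP Ω)) = P.map germHom ∧
    ∀ N, P.map (Pi.evalRingHom (fun _ => Ω) N) = q N

variable {W : Tow κ K Ω} {m : ℕ} {G : MvPolynomial (Fin m) W.F0}
  {q : ℕ → MvPolynomial (Fin m) Ω}

theorem GermOf.pderiv (h : GermOf W G q) (k : Fin m) :
    GermOf W (pderiv k G) (fun N => MvPolynomial.pderiv k (q N)) := by
  obtain ⟨P, hP1, hP2⟩ := h
  refine ⟨MvPolynomial.pderiv k P, ?_, fun N => ?_⟩
  · rw [← pderiv_map, hP1, pderiv_map]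
  · rw [← pderiv_map, hP2]

theorem GermOf.aeval (h : GermOf W G q) (z : ℕ → Fin m → Ω) :
    aeval (fun j => germHom (fun N => z N j)) G = germHom (fun N => eval (z N) (q N)) := by
  obtain ⟨P, hP1, hP2⟩ := h
  have h1 : MvPolynomial.aeval (fun j => germHom (fun N => z N j)) G =
      eval (fun j => germHom (fun N => z N j)) (G.map (algebraMap W.F0 (UP Ω))) := by
    rw [eval_map]
    rfl
  rw [h1, hP1, eval_map_germ]
  simp only [hP2]

theorem GermOf.coeff (h : GermOf W G q) (J : Fin m →₀ ℕ) :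
    algebraMap W.F0 (UP Ω) (G.coeff J) = germHom (fun N => (q N).coeff J) := by
  obtain ⟨P, hP1, hP2⟩ := h
  have h1 := congrArg (fun T => MvPolynomial.coeff J T) hP1
  simp only [coeff_map] at h1
  rw [h1]
  congr 1
  funext N
  rw [← hP2 N, coeff_map]
  rfl

theorem GermOf.isHomogeneous (h : GermOf W G q) {e : ℕ} (hq : ∀ N, (q N).IsHomogeneous e) :
    G.IsHomogeneous e := by
  intro J hJ
  have h1 := h.coeff J
  have h2 : germHom (fun N => (q N).coeff J) ≠ 0 := by
    rw [← h1]
    exact (map_ne_zero (algebraMap W.F0 (UP Ω))).2 hJ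
  by_contra hcon
  apply h2
  rw [germHom_eq_zero_iff]
  refine Filter.Eventually.of_forall fun N => ?_
  by_contra h3
  exact hcon (hq N h3)

/-- the existence of the germs -/
theorem exists_germOf {E : ∀ N, IntermediateField (W.L N) Ω}
    [∀ N, FiniteDimensional (W.L N) (E N)] {c₀ : ℕ}
    (hE : ∀ N, finrank (W.L N) (E N) ≤ c₀) {b C' : ℕ}
    (g : ∀ N, MvPolynomial (Fin m) (E N)) (hg : ∀ N, (g N).totalDegree ≤ b)
    (hone : ∀ N, ∃ I, (g N).coeff I = 1)
    (hgT : ∀ N, polyHeight κ (g N) ≤ C' * (W.T N : ℤ)) :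
    ∃ G : MvPolynomial (Fin m) W.F0, GermOf W G (fun N => (g N).map (algebraMap (E N) Ω)) := by
  classical
  have hff : ∀ N, IsFF κ (E N) := fun N => (W.ffL N).of_finite
  choose I hI using hone
  have hqdeg : ∀ N, ((g N).map (algebraMap (E N) Ω)).totalDegree ≤ b := fun N =>
    (by
      refine le_trans ?_ (hg N)
      exact Finset.sup_mono (support_map_subset _ _))
  obtain ⟨P, hPc, hPm⟩ := exists_seq_poly (fun N => (g N).map (algebraMap (E N) Ω)) hqdeg
  have hcoef : ∀ J, (P.map (germHom (L := Ω))).coeff J ∈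
      Set.range (algebraMap W.F0 (UP Ω)) := by
    intro J
    rw [coeff_map]
    have h1 : P.coeff J = fun N => (((g N).coeff J : E N) : Ω) := by
      funext N
      rw [hPc, coeff_map]
      rfl
    rw [h1]
    have h2 : germHom (fun N => (((g N).coeff J : E N) : Ω)) ∈ W.F0 :=
      W.germ_mem_F0 E (c := c₀ + C') (fun N => (hE N).trans (Nat.le_add_right _ _)) _
        (Filter.Eventually.of_forall fun N => by
          have h3 := height_coeff_le (hff N) (A := g N) (I := I N) (by
            rw [hI]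
            exact one_ne_zero) J
          rw [hI, div_one] at h3
          refine (h3.trans (hgT N)).trans ?_
          refine mul_le_mul_of_nonneg_right ?_ (by positivity)
          exact_mod_cast Nat.le_add_left _ _)
    exact ⟨⟨_, h2⟩, rfl⟩
  obtain ⟨G, hG⟩ := exists_map_eq hcoef
  exact ⟨G, P, hG, hPm⟩

/-- **Normal crossings in the limit.** -/
theorem nc_germ {a p : ℕ} {F : Fin a → MvPolynomial (Fin m) W.F0}
    {H : Fin p → MvPolynomial (Fin m) W.F0}
    {qF : ℕ → Fin a → MvPolynomial (Fin m) Ω} {qH : ℕ → Fin p → MvPolynomial (Fin m) Ω}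
    (hF : ∀ i, GermOf W (F i) (fun N => qF N i)) (hH : ∀ j, GermOf W (H j) (fun N => qH N j))
    (hNC : ∀ N, NCAt (qF N) (qH N) Ω) : NCAt F H (UP Ω) := by
  classical
  intro J z hz hFz hHz
  have hsur : ∀ j, ∃ y : ℕ → Ω, germHom y = z j := fun j => germHom_surjective (z j)
  choose y hy using hsur
  obtain ⟨Z, hZ⟩ : ∃ Z : ℕ → Fin m → Ω, Z = fun N j => y j N := ⟨_, rfl⟩
  have hzZ : z = fun j => germHom (fun N => Z N j) := by
    funext j
    rw [hZ, ← hy j]
  rw [hzZ] at hFz hHz ⊢
  have e1 : ∀ᶠ N in (Filter.hyperfilter ℕ : Filter ℕ), Z N ≠ 0 := by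
    by_contra hcon
    rw [← Ultrafilter.eventually_not] at hcon
    apply hz
    rw [hzZ]
    funext j
    rw [Pi.zero_apply, germHom_eq_zero_iff]
    filter_upwards [hcon] with N hN
    rw [not_not.1 hN]
    rfl
  have e2 : ∀ i, ∀ᶠ N in (Filter.hyperfilter ℕ : Filter ℕ), MvPolynomial.aeval (Z N) (qF N i) = 0 := by
    intro i
    have h1 := hFz i
    rw [(hF i).aeval, germHom_eq_zero_iff] at h1
    exact h1
  have e3 : ∀ j ∈ J, ∀ᶠ N in (Filter.hyperfilter ℕ : Filter ℕ),
      MvPolynomial.aeval (Z N) (qH N j) = 0 := by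
    intro j hj
    have h1 := hHz j hj
    rw [(hH j).aeval, germHom_eq_zero_iff] at h1
    exact h1
  have h1 := li_germ (fun N => (Sum.elim (fun i l => MvPolynomial.aeval (Z N)
      (MvPolynomial.pderiv l (qF N i))) (fun (j : J) l => MvPolynomial.aeval (Z N)
      (MvPolynomial.pderiv l (qH N j))) : Fin a ⊕ J → Fin m → Ω)) (by
    filter_upwards [e1, Filter.eventually_all.2 e2,
      (Filter.eventually_all_finset J).2 e3] with N h1 h2 h3
    exact hNC N J (Z N) h1 h2 h3)
  have h2 : (Sum.elim (fun i l => MvPolynomial.aeval (fun j => germHom (fun N => Z N j))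
      (MvPolynomial.pderiv l (F i))) (fun (j : J) l =>
      MvPolynomial.aeval (fun j => germHom (fun N => Z N j)) (MvPolynomial.pderiv l (H j))) :
        Fin a ⊕ J → Fin m → UP Ω) = fun r c => germHom (fun N => (Sum.elim
      (fun i l => MvPolynomial.aeval (Z N)
      (MvPolynomial.pderiv l (qF N i))) (fun (j : J) l => MvPolynomial.aeval (Z N)
      (MvPolynomial.pderiv l (qH N j))) : Fin a ⊕ J → Fin m → Ω) r c) := by
    funext s l
    rcases s with i | j
    · rw [Sum.elim_inl, ((hF i).pderiv l).aeval]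
      rfl
    · rw [Sum.elim_inr, ((hH j).pderiv l).aeval]
      rfl
  rw [h2]
  exact h1

end

end Pool.Agent.Lib.MP_44a246_ntNC
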