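import Mathlib
import Pool.Agent.Lib.MP_44a246_ntNC.NC03

/-!
# Polynomials whose coefficients are polynomials in the coefficients of the forms
-/

namespace Pool.Agent.Lib.MP_44a246_ntNC

open Pool.Agent.Lib.MP_e52354_nt
open Pool.Agent.Lib.MP_44a246_nt
open MvPolynomial

/-- the polynomials in countably many variables over a countable ring are countable -/
theorem countable_mvPoly (σ R : Type*) [CommSemiring R] [Countable σ] [Countable R] :
    Countable (MvPolynomial σ R) := by
  classical
  have h : Function.Injective (fun p : MvPolynomial σ R =>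
      (⟨p.support, fun s : p.support => p.coeff s⟩ : (Σ S : Finset (σ →₀ ℕ), S → R))) := by
    intro p q h
    ext s
    obtain ⟨f, hf⟩ : ∃ f : (Σ S : Finset (σ →₀ ℕ), S → R) → (σ →₀ ℕ) → R,
        f = fun t s => if h : s ∈ t.1 then t.2 ⟨s, h⟩ else 0 := ⟨_, rfl⟩
    have h2 : ∀ p : MvPolynomial σ R,
        p.coeff s = f (⟨p.support, fun s : p.support => p.coeff s⟩) s := by
      intro p
      rw [hf]
      simp only
      split_ifs with h3
      · rfl
      · exact MvPolynomial.notMem_support_iff.1 h3
    rw [h2 p, h2 q]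
    exact congrArg (fun t => f t s) h
  exact h.countable

section Spec

variable {I σ A B : Type*} [CommRing A] [Algebra ℚ A] [CommRing B] [Algebra ℚ B]

/-- the polynomial with the coefficients specialised at `y` -/
noncomputable def spec (y : I → A) (g : MvPolynomial σ (MvPolynomial I ℚ)) : MvPolynomial σ A :=
  g.map (aeval y : MvPolynomial I ℚ →ₐ[ℚ] A).toRingHom

theorem coeff_spec (y : I → A) (g : MvPolynomial σ (MvPolynomial I ℚ)) (J : σ →₀ ℕ) :
    (spec y g).coeff J = aeval y (g.coeff J) := by
  unfold spec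
  rw [coeff_map]
  rfl

theorem map_spec (φ : A →+* B) (y : I → A) (g : MvPolynomial σ (MvPolynomial I ℚ)) :
    (spec y g).map φ = spec (fun s => φ (y s)) g := by
  ext J
  rw [coeff_map, coeff_spec, coeff_spec]
  have h1 : φ.comp (aeval y : MvPolynomial I ℚ →ₐ[ℚ] A).toRingHom =
      (aeval (fun s => φ (y s)) : MvPolynomial I ℚ →ₐ[ℚ] B).toRingHom := by
    refine MvPolynomial.ringHom_ext (fun q => ?_) fun s => ?_
    · show φ (aeval y (C q)) = aeval (fun s => φ (y s)) (C q)
      rw [aeval_C, aeval_C, RingHom.map_rat_algebraMap]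
    · show φ (aeval y (X s)) = aeval (fun s => φ (y s)) (X s)
      rw [aeval_X, aeval_X]
  exact RingHom.congr_fun h1 _

end Spec

/-- a polynomial over the field generated by the `y s` is a specialisation, up to a constant -/
theorem exists_spec {I σ F : Type*} [Field F] [CharZero F] (y : I → F)
    (Q : MvPolynomial σ (IntermediateField.adjoin ℚ (Set.range y))) :
    ∃ (g : MvPolynomial σ (MvPolynomial I ℚ)) (c : F), c ≠ 0 ∧
      spec y g = C c * Q.map (algebraMap (IntermediateField.adjoin ℚ (Set.range y)) F) := by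
  classical
  have hq : ∀ J, ∃ r s : MvPolynomial I ℚ, aeval y s ≠ 0 ∧
      ((Q.coeff J : IntermediateField.adjoin ℚ (Set.range y)) : F) = aeval y r / aeval y s := by
    intro J
    obtain ⟨r, s, hrs⟩ := (IntermediateField.mem_adjoin_range_iff ℚ y _).1 (Q.coeff J).2
    by_cases hs : aeval y s = 0
    · refine ⟨0, 1, ?_, ?_⟩
      · rw [map_one]
        exact one_ne_zero
      · rw [hrs, hs, div_zero, map_zero, zero_div]
    · exact ⟨r, s, hs, hrs⟩
  choose r s hs hrs using hq
  obtain ⟨c, hc⟩ : ∃ c : F, c = ∏ J ∈ Q.support, aeval y (s J) := ⟨_, rfl⟩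
  refine ⟨∑ J ∈ Q.support, monomial J (r J * ∏ J' ∈ Q.support.erase J, s J'), c, ?_, ?_⟩
  · rw [hc]
    exact Finset.prod_ne_zero_iff.2 fun J _ => hs J
  · ext J
    rw [coeff_spec, coeff_C_mul, coeff_map, coeff_sum]
    simp only [coeff_monomial]
    rw [Finset.sum_ite_eq']
    split_ifs with hJ
    · have h1 : algebraMap (IntermediateField.adjoin ℚ (Set.range y)) F (Q.coeff J) =
          aeval y (r J) / aeval y (s J) := hrs J
      rw [h1, map_mul, map_prod, hc, ← Finset.mul_prod_erase _ _ hJ]
      have h2 := hs J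
      field_simp
    · rw [notMem_support_iff.1 hJ, map_zero, map_zero, mul_zero]

end Pool.Agent.Lib.MP_44a246_ntNC
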