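import Mathlib
import Pool.Agent.Lib.MP_44a246_ntNC.NC03
import Pool.Agent.Lib.MP_44a246_ntU.U13
import Pool.Agent.Lib.MP_44a246_ntQ.Q02

/-!
# A curve defined by equations over an algebraically closed field
-/

namespace Pool.Agent.Lib.MP_44a246_ntNC

open Pool.Agent.Lib.MP_e52354_nt
open Pool.Agent.Lib.MP_44a246_nt
open Pool.Agent.Lib.MP_44a246_ntL
open Pool.Agent.Lib.MP_44a246_ntU (exists_der_indepV)
open Pool.Agent.Lib.MP_44a246_ntQ (der_aeval)
open WithZero Module MvPolynomial

/-- three independent vectors in the kernel of `n - 1` independent rows of length `n + 1` -/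
theorem kernel_dim {U R : Type*} [Field U] [Fintype R] {n : ℕ}
    (hR : Fintype.card R + 2 = n + 1) {A : R → Fin (n + 1) → U} (hA : LinearIndependent U A)
    {v : Fin 3 → Fin (n + 1) → U} (hv : LinearIndependent U v)
    (h : ∀ r i, ∑ k, A r k * v i k = 0) : False := by
  classical
  have h1 : (Matrix.of A).rank = Fintype.card R := LinearIndependent.rank_matrix hA
  have h2 := (Matrix.of A).mulVecLin.finrank_range_add_finrank_ker
  have h3 : finrank U (LinearMap.range (Matrix.of A).mulVecLin) = Fintype.card R := h1
  rw [h3, Module.finrank_fintype_fun_eq_card, Fintype.card_fin] at h2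
  have h4 : finrank U (LinearMap.ker (Matrix.of A).mulVecLin) = 2 := by omega
  have hmem : ∀ i, v i ∈ LinearMap.ker (Matrix.of A).mulVecLin := by
    intro i
    rw [LinearMap.mem_ker, Matrix.mulVecLin_apply]
    funext r
    exact h r i
  have h5 : LinearIndependent U
      (fun i => (⟨v i, hmem i⟩ : LinearMap.ker (Matrix.of A).mulVecLin)) :=
    LinearIndependent.of_comp (LinearMap.ker (Matrix.of A).mulVecLin).subtype hv
  have h6 := h5.fintype_card_le_finrank
  rw [h4, Fintype.card_fin] at h6
  omega

/-- the coordinates are algebraic over the field generated by one of them -/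
theorem algebraic_of_rows {F U R : Type*} [Field F] [CharZero F] [Field U] [Algebra F U]
    [Fintype R] {n : ℕ} (hR : Fintype.card R + 2 = n + 1)
    {G : R → MvPolynomial (Fin (n + 1)) F} {xg : Fin (n + 1) → U}
    (hG : ∀ r, aeval xg (G r) = 0) (hGe : ∀ r, ∑ k, xg k * aeval xg (pderiv k (G r)) = 0)
    (hli : LinearIndependent U (fun r k => aeval xg (pderiv k (G r)) : R → Fin (n + 1) → U))
    {l jn : Fin (n + 1)} (hl : xg l = 1) (hjn : Transcendental F (xg jn)) (k : Fin (n + 1)) :
    IsAlgebraic (IntermediateField.adjoin F {xg jn}) (xg k) := by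
  classical
  by_contra hk
  have hcM : CharZero (IntermediateField.adjoin F {xg jn}) :=
    charZero_of_injective_algebraMap (algebraMap F _).injective
  obtain ⟨D₁, hD₁, hD₁t⟩ := exists_der_indepV (k := F) (κ := U)
    (c := fun _ : Unit => xg jn) (algebraicIndependent_unique_type_iff.mpr hjn) (fun _ => 1)
  obtain ⟨D₂, hD₂, hD₂k⟩ := exists_der_indepV (k := IntermediateField.adjoin F {xg jn}) (κ := U)
    (c := fun _ : Unit => xg k) (algebraicIndependent_unique_type_iff.mpr hk) (fun _ => 1)
  have hD₂F : ∀ u : F, D₂ (algebraMap F U u) = 0 := by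
    intro u
    rw [IsScalarTower.algebraMap_apply F (IntermediateField.adjoin F {xg jn}) U]
    exact hD₂ _
  have hD₂t : D₂ (xg jn) = 0 :=
    hD₂ ⟨xg jn, IntermediateField.mem_adjoin_simple_self F _⟩
  have hD1 : ∀ D : Derivation ℤ U U, D 1 = 0 := fun D => D.map_one_eq_zero
  obtain ⟨v, hv⟩ : ∃ v : Fin 3 → Fin (n + 1) → U,
      v = ![xg, fun k => D₁ (xg k), fun k => D₂ (xg k)] := ⟨_, rfl⟩
  have hvli : LinearIndependent U v := by
    rw [Fintype.linearIndependent_iff]
    intro c hc
    have h1 : ∀ i, c 0 * xg i + c 1 * D₁ (xg i) + c 2 * D₂ (xg i) = 0 := by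
      intro i
      have h2 := congrFun hc i
      rw [Finset.sum_apply, Fin.sum_univ_three, hv] at h2
      exact h2
    have h0 : c 0 = 0 := by
      have h2 := h1 l
      rw [hl, hD1, hD1] at h2
      simpa using h2
    have h3 : c 1 = 0 := by
      have h2 := h1 jn
      rw [h0, hD₁t (), hD₂t] at h2
      simpa using h2
    have h4 : c 2 = 0 := by
      have h2 := h1 k
      rw [h0, h3, hD₂k ()] at h2
      simpa using h2
    intro i
    fin_cases i
    · exact h0
    · exact h3
    · exact h4
  have hder : ∀ D : Derivation ℤ U U, (∀ u : F, D (algebraMap F U u) = 0) → ∀ r,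
      ∑ k, aeval xg (pderiv k (G r)) * D (xg k) = 0 := by
    intro D hD r
    rw [← der_aeval D hD xg (G r), hG, map_zero]
  refine kernel_dim hR hli hvli fun r i => ?_
  rw [hv]
  fin_cases i
  · show ∑ k, aeval xg (pderiv k (G r)) * xg k = 0
    rw [← hGe r]
    exact Finset.sum_congr rfl fun k _ => mul_comm _ _
  · exact hder D₁ hD₁ r
  · exact hder D₂ hD₂F r

/-- **The field of the curve.** -/
theorem isFF_of_rows {F U R : Type*} [Field F] [IsAlgClosed F] [CharZero F] [Field U]
    [Algebra F U] [Fintype R] {n : ℕ} (hR : Fintype.card R + 2 = n + 1)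
    {G : R → MvPolynomial (Fin (n + 1)) F} {xg : Fin (n + 1) → U}
    (hG : ∀ r, aeval xg (G r) = 0) (hGe : ∀ r, ∑ k, xg k * aeval xg (pderiv k (G r)) = 0)
    (hli : LinearIndependent U (fun r k => aeval xg (pderiv k (G r)) : R → Fin (n + 1) → U))
    {l jn : Fin (n + 1)} (hl : xg l = 1) (hjn : ∀ c : F, algebraMap F U c ≠ xg jn) :
    IsFF F (IntermediateField.adjoin F (Set.range xg)) := by
  classical
  have ht : Transcendental F (xg jn) := by
    intro halg
    obtain ⟨c, hc⟩ := minpoly.mem_range_of_degree_eq_one F (xg jn)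
      (IsAlgClosed.degree_eq_one_of_irreducible F (minpoly.irreducible halg.isIntegral))
    exact hjn c hc
  have halg := algebraic_of_rows hR hG hGe hli hl ht
  obtain ⟨M₀, hM₀⟩ : ∃ M₀ : IntermediateField F U,
      M₀ = IntermediateField.adjoin F {xg jn} := ⟨_, rfl⟩
  rw [← hM₀] at halg
  have htM : xg jn ∈ M₀ := by
    rw [hM₀]
    exact IntermediateField.mem_adjoin_simple_self F _
  have hFF : IsFF F M₀ := by
    obtain ⟨t', ht'⟩ : ∃ t' : M₀, t' = ⟨xg jn, htM⟩ := ⟨_, rfl⟩
    have htop : IntermediateField.adjoin F {t'} = ⊤ := by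
      rw [eq_top_iff]
      intro z _
      have h1 : IntermediateField.map M₀.val (IntermediateField.adjoin F {t'}) =
          IntermediateField.adjoin F {xg jn} := by
        rw [IntermediateField.adjoin_map, Set.image_singleton, ht']
        rfl
      have h2 : (z : U) ∈ IntermediateField.map M₀.val (IntermediateField.adjoin F {t'}) := by
        rw [h1, ← hM₀]
        exact z.2
      obtain ⟨z', hz', hzz⟩ := h2
      have h3 : z' = z := Subtype.ext hzz
      rw [← h3]
      exact hz'
    refine ⟨t', ?_, ?_⟩
    · intro h1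
      have h2 := h1.algebraMap (A := U)
      rw [ht'] at h2
      exact ht h2
    · rw [htop]
      exact Module.finite_of_finrank_pos (by
        rw [IntermediateField.finrank_top]
        exact one_pos)
  have hfin : FiniteDimensional M₀ (IntermediateField.adjoin M₀ (Set.range xg)) := by
    have : Finite (Set.range xg) := Set.finite_range _
    refine IntermediateField.finiteDimensional_adjoin fun z hz => ?_
    obtain ⟨j, rfl⟩ := hz
    exact (halg j).isIntegral
  have heq : IntermediateField.adjoin F (Set.range xg) =
      (IntermediateField.adjoin M₀ (Set.range xg)).restrictScalars F := by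
    apply le_antisymm
    · rw [IntermediateField.adjoin_le_iff]
      intro z hz
      exact IntermediateField.subset_adjoin M₀ _ hz
    · intro z hz
      rw [IntermediateField.mem_restrictScalars] at hz
      have hle : M₀ ≤ IntermediateField.adjoin F (Set.range xg) := by
        rw [hM₀, IntermediateField.adjoin_simple_le_iff]
        exact IntermediateField.subset_adjoin _ _ ⟨jn, rfl⟩
      induction hz using IntermediateField.adjoin_induction with
      | mem z hz => exact IntermediateField.subset_adjoin _ _ hz
      | algebraMap z => exact hle z.2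
      | add z z' _ _ h h' => exact add_mem h h'
      | inv z _ h => exact inv_mem h
      | mul z z' _ _ h h' => exact mul_mem h h'
  rw [heq]
  let iA : Algebra M₀ ((IntermediateField.adjoin M₀ (Set.range xg)).restrictScalars F) :=
    inferInstanceAs (Algebra M₀ (IntermediateField.adjoin M₀ (Set.range xg)))
  have t1 : IsScalarTower F M₀ ((IntermediateField.adjoin M₀ (Set.range xg)).restrictScalars F) :=
    IsScalarTower.of_algebraMap_eq fun u => rfl
  have f1 : FiniteDimensional M₀
    ((IntermediateField.adjoin M₀ (Set.range xg)).restrictScalars F) := hfin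
  exact IsFF.of_finite (K := M₀) hFF

end Pool.Agent.Lib.MP_44a246_ntNC
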