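import Mathlib
import Pool.Agent.Lib.MP_44a246_ntUV.UV94
import Pool.Agent.Lib.MP_44a246_ntNC.NC04

/-!
# The adjunction inequality for a pair with normal crossings
-/

namespace Pool.Agent.Lib.MP_44a246_ntNC

open Pool.Agent.Lib.MP_e52354_nt
open Pool.Agent.Lib.MP_44a246_nt
open Pool.Agent.Lib.MP_44a246_ntL
open Pool.Agent.Lib.MP_44a246_ntR
open Pool.Agent.Lib.MP_44a246_ntS
open Pool.Agent.Lib.MP_44a246_ntU
open Pool.Agent.Lib.MP_44a246_ntSH
open Pool.Agent.Lib.MP_44a246_ntSF
open Pool.Agent.Lib.MP_44a246_ntUV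
open WithZero Module MvPolynomial

/-- **The adjunction inequality for a pair with normal crossings.** -/
theorem adj_NC {k₁ F M : Type*} [Field k₁] [CharZero k₁] [Field F]
    [IsAlgClosed F] [CharZero F] [Field M] [Algebra F M] [Algebra k₁ F]
    [Algebra k₁ M] [IsScalarTower k₁ F M]
    [Algebra (RatFunc F) M] [IsScalarTower F (RatFunc F) M] [FiniteDimensional (RatFunc F) M]
    {n a p m : ℕ} (hn : a + (m + 1) = n) {e : Fin a → ℕ} (he : ∀ i, 1 ≤ e i) {d : Fin p → ℕ}
    {P : Fin a → MvPolynomial (Fin (n + 1)) F} {H : Fin p → MvPolynomial (Fin (n + 1)) F}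
    (hP : ∀ i, (P i).IsHomogeneous (e i)) (hH : ∀ j, (H j).IsHomogeneous (d j))
    (hNC : NCAt P H F)
    (hcP : ∀ i I, ∃ u : k₁, algebraMap k₁ F u = (P i).coeff I)
    (hcH : ∀ i I, ∃ u : k₁, algebraMap k₁ F u = (H i).coeff I)
    {γ : Fin (n + 1) → M} (hPγ : ∀ i, aeval γ (P i) = 0) (hHγ : ∀ j, aeval γ (H j) ≠ 0)
    {l : Fin (n + 1)} (hl : γ l ≠ 0) {j : Fin (m + 1) → Fin (n + 1)}
    (hgen : AlgebraicIndependent k₁ (fun i => γ (j i) / γ l))
    (hnc : ∃ i, ∀ c : F, algebraMap F M c ≠ γ i / γ l)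
    (B : Finset (Place F M))
    (hB : ∀ v j, 0 < ordV v (d j) (aeval γ (H j)) γ → v ∈ B) :
    ((∑ i, (e i : ℚ)) + ∑ j, (d j : ℚ) - (n + 1)) * height F γ + 2 * finrank (RatFunc F) M ≤
      ramDeg F M (RatFunc F) + B.card := by
  classical
  let a1 : Algebra (Polynomial F) M :=
    ((algebraMap (RatFunc F) M).comp (algebraMap (Polynomial F) (RatFunc F))).toAlgebra
  have t1 : IsScalarTower (Polynomial F) (RatFunc F) M :=
    IsScalarTower.of_algebraMap_eq fun _ => rfl
  have t2 : IsScalarTower F (Polynomial F) M := IsScalarTower.of_algebraMap_eq fun u => by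
    rw [IsScalarTower.algebraMap_apply F (RatFunc F) M u,
      IsScalarTower.algebraMap_apply F (Polynomial F) (RatFunc F) u]
    rfl
  let a2 : Algebra (Rinf F) M :=
    ((algebraMap (RatFunc F) M).comp (algebraMap (Rinf F) (RatFunc F))).toAlgebra
  have t3 : IsScalarTower (Rinf F) (RatFunc F) M := IsScalarTower.of_algebraMap_eq fun _ => rfl
  have hXeq : tL F M = algebraMap (Polynomial F) M Polynomial.X := by
    unfold tL
    rw [IsScalarTower.algebraMap_apply (Polynomial F) (RatFunc F) M, RatFunc.algebraMap_X]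
  have hFF : IsFF F M := isFF_of_ratFunc F M
  have ht : Transcendental F (algebraMap (Polynomial F) M Polynomial.X) := by
    rw [← hXeq]
    exact transcendental_tL
  have hfin : FiniteDimensional
      (IntermediateField.adjoin F {algebraMap (Polynomial F) M Polynomial.X}) M :=
    finite_over_adjoin hFF ht
  have halg : Algebra.IsAlgebraic
      (IntermediateField.adjoin F {algebraMap (Polynomial F) M Polynomial.X}) M :=
    inferInstance
  obtain ⟨D, hD0, hDX⟩ := exists_der_ext ht halg (0 : Derivation ℤ F F) 1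
  have hDκ : ∀ u : F, D (algebraMap F M u) = 0 := fun u => by
    rw [hD0]
    simp
  obtain ⟨i₀, hi₀⟩ := hnc
  obtain ⟨E, hEκ, hEX, hEk, hind⟩ := exists_ders_over (k₂ := k₁) ht halg D hDκ hDX (γ := γ)
    (l := l) hl (j := j) hgen ⟨i₀, fun h0 => by
      obtain ⟨c, hc⟩ := const_of_der hfin ht D hDκ (by rw [hDX]; exact one_ne_zero) h0
      exact hi₀ c hc⟩
  have hγ : γ ≠ 0 := fun h0 => hl (congrFun h0 l)
  obtain ⟨cw, hcw⟩ : ∃ cw : Place F M →₀ ℚ, cw = Finsupp.onFinset B
      (fun w => if w ∈ B then 1 else 0) (fun w hw => by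
        by_contra h
        exact hw (if_neg h)) := ⟨_, rfl⟩
  have hcwv : ∀ w, cw w = if w ∈ B then 1 else 0 := fun w => by rw [hcw]; rfl
  have hcws : (cw.sum fun _ x => x) = B.card := by
    rw [hcw, Finsupp.onFinset_sum _ (fun _ => rfl), Finset.sum_congr rfl
      (fun w hw => if_pos hw), Finset.sum_const, nsmul_eq_mul, mul_one]
  have hPv : ∀ i, Fval (e i) (fun I => algebraMap F M ((P i).coeff I)) γ = 0 := fun i => by
    rw [← aeval_eq_Fval (hP i), hPγ]
  have hHv : ∀ i, Fval (d i) (fun I => algebraMap F M ((H i).coeff I)) γ ≠ 0 := fun i => by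
    rw [← aeval_eq_Fval (hH i)]
    exact hHγ i
  have h := orb_adj (κ := F) (M := M) (ι := Fin a) (Λ := Fin p) (m := m) (N := n + 1)
    (by rw [Fintype.card_fin]; omega) he (a := fun i I => (P i).coeff I)
    (d' := d) (a' := fun i I => (H i).coeff I) (by
      intro S u hu h1 h2
      have h3 := hNC S u hu (fun i => by
        rw [aeval_eq_Fval (hP i)]
        exact h1 i) (fun j hj => by
        rw [aeval_eq_Fval (hH j)]
        exact h2 j hj)
      have h4 : (Sum.elim (fun b => grad (e b) (fun I => (P b).coeff I) u)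
          (fun c : S => grad (d c) (fun I => (H c).coeff I) u) : Fin a ⊕ S → Fin (n + 1) → F) =
          Sum.elim (fun i l => aeval u (pderiv l (P i))) (fun (j : S) l =>
            aeval u (pderiv l (H j))) := by
        funext s l
        rcases s with i | j
        · exact grad_eq_pderiv (hP i) u l
        · exact grad_eq_pderiv (hH j) u l
      rw [h4]
      exact h3)
    D hDκ hDX E hEκ (fun i => ⟨0, by rw [hEX, map_zero]⟩)
    (fun i b I _ => by
      obtain ⟨u, hu⟩ := hcP b I
      rw [← hu, ← IsScalarTower.algebraMap_apply k₁ F M]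
      exact hEk i u)
    (fun i b I _ => by
      obtain ⟨u, hu⟩ := hcH b I
      rw [← hu, ← IsScalarTower.algebraMap_apply k₁ F M]
      exact hEk i u)
    hPv hHv hind (wt := fun _ => 0) (fun _ => le_rfl) (cw := cw) (fun w => by
      rw [hcwv]
      split_ifs
      · exact zero_le_one
      · exact le_rfl)
    (fun w c ho => by
      rw [zero_mul, sub_zero, hcwv, if_pos]
      refine hB w c ?_
      unfold ordV
      rw [aeval_eq_Fval (hH c)]
      exact ho)
  rw [hcws] at h
  simp only [sub_zero, one_mul] at h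
  push_cast at h
  exact h

end Pool.Agent.Lib.MP_44a246_ntNC
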