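import Mathlib
import Pool.Agent.Lib.MP_44a246_ntUV.UV95
import Pool.Agent.Lib.MP_44a246_ntTM.TM03
import Pool.Agent.Lib.MP_44a246_ntNC.NC05

/-!
# The limit curve of a sequence of points with curves of small height
-/

namespace Pool.Agent.Lib.MP_44a246_ntNC

open Pool.Agent.Lib.MP_e52354_nt
open Pool.Agent.Lib.MP_44a246_nt
open Pool.Agent.Lib.MP_44a246_ntL
open Pool.Agent.Lib.MP_44a246_ntR
open Pool.Agent.Lib.MP_44a246_ntS
open Pool.Agent.Lib.MP_44a246_ntU
open Pool.Agent.Lib.MP_44a246_ntSH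
open Pool.Agent.Lib.MP_44a246_ntSP
open Pool.Agent.Lib.MP_44a246_ntSF
open Pool.Agent.Lib.MP_44a246_ntUV
open Pool.Agent.Lib.MP_44a246_ntTM
open WithZero Module MvPolynomial

universe u v w

/-- Euler's formula for the values of a form -/
theorem euler_aeval {F U : Type*} [Field F] [Field U] [Algebra F U] {m d : ℕ}
    {P : MvPolynomial (Fin m) F} (hP : P.IsHomogeneous d) (z : Fin m → U) :
    ∑ k, z k * aeval z (pderiv k P) = d * aeval z P := by
  have h1 := hP.sum_X_mul_pderiv
  have h2 := congrArg (aeval z) h1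
  rw [map_sum] at h2
  simp only [map_mul, aeval_X, nsmul_eq_mul, map_natCast] at h2
  exact h2

/-- normal crossings over a subfield -/
theorem NCAt.of_extension {F U : Type*} [Field F] [Field U] [Algebra F U] {N : ℕ} {ι Λ : Type*}
    [Finite ι] {P : ι → MvPolynomial (Fin N) F} {H : Λ → MvPolynomial (Fin N) F}
    (h : NCAt P H U) : NCAt P H F := by
  classical
  have := Fintype.ofFinite ι
  intro J z hz hP hH
  have hval : ∀ Q : MvPolynomial (Fin N) F, aeval (fun l => algebraMap F U (z l)) Q =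
      algebraMap F U (aeval z Q) := fun Q => aeval_algebraMap_apply (B := U) z Q
  have h1 := h J (fun l => algebraMap F U (z l)) (fun h0 => hz (by
    funext l
    have h2 := congrFun h0 l
    exact (map_eq_zero _).1 h2)) (fun i => by rw [hval, hP, map_zero])
    (fun j hj => by rw [hval, hH j hj, map_zero])
  rw [Fintype.linearIndependent_iff] at h1 ⊢
  intro c hc s
  have h2 := h1 (fun s => algebraMap F U (c s)) (by
    funext k
    rw [Finset.sum_apply, Pi.zero_apply]
    have h3 := congrArg (algebraMap F U) (congrFun hc k)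
    rw [Finset.sum_apply, map_sum, Pi.zero_apply, map_zero] at h3
    rw [← h3]
    refine Finset.sum_congr rfl fun s _ => ?_
    rcases s with i | j
    · show algebraMap F U (c (Sum.inl i)) * aeval _ _ =
        algebraMap F U (c (Sum.inl i) * aeval z _)
      rw [hval, map_mul]
    · show algebraMap F U (c (Sum.inr j)) * aeval _ _ =
        algebraMap F U (c (Sum.inr j) * aeval z _)
      rw [hval, map_mul]) s
  exact (map_eq_zero _).1 h2

noncomputable section

/-- **The limit of a sequence of points with curves of small height**: the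
function field `M`, the point `γ`, the set `B` of the places at which a form `H_j`
vanishes, and the adjunction inequality. -/
theorem limit_NC {κ : Type u} {K : Type v} {Ω : Type w} [Field κ] [IsAlgClosed κ]
    [CharZero κ]
    [Field K] [Algebra κ K] [Field Ω] [Algebra K Ω] [Algebra κ Ω] [IsScalarTower κ K Ω]
    [IsAlgClosed Ω] [Algebra.IsAlgebraic K Ω] (W : Tow κ K Ω)
    {E : ∀ N, IntermediateField (W.L N) Ω} [∀ N, FiniteDimensional (W.L N) (E N)] {c₀ : ℕ}
    (hE : ∀ N, finrank (W.L N) (E N) ≤ c₀) {n a p m : ℕ} (hn : a + (m + 1) = n)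
    {e : Fin a → ℕ} (he : ∀ i, 1 ≤ e i) {d : Fin p → ℕ}
    {P : Fin a → MvPolynomial (Fin (n + 1)) W.F0} {H : Fin p → MvPolynomial (Fin (n + 1)) W.F0}
    (hP : ∀ i, (P i).IsHomogeneous (e i)) (hH : ∀ j, (H j).IsHomogeneous (d j))
    (hNC : NCAt P H W.F0)
    {x : ∀ N, Fin (n + 1) → E N} {l : Fin (n + 1)} (hxl : ∀ N, x N l = 1)
    {xg : Fin (n + 1) → UP Ω} (hxg : xg = fun j => germHom (fun N => (x N j : Ω)))
    (hPx : ∀ i, aeval xg (P i) = 0) (hHx : ∀ j, aeval xg (H j) ≠ 0)
    {G : Fin m → MvPolynomial (Fin (n + 1)) W.F0} (hG : ∀ i, aeval xg (G i) = 0)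
    (hGe : ∀ i, ∑ k, xg k * aeval xg (pderiv k (G i)) = 0)
    (hli : LinearIndependent (UP Ω) (Sum.elim (fun i l => aeval xg (pderiv l (P i)))
      (fun i l => aeval xg (pderiv l (G i))) : Fin a ⊕ Fin m → Fin (n + 1) → UP Ω))
    {k₂ : Type*} [Field k₂] [CharZero k₂] [Algebra k₂ W.F0] [Algebra k₂ (UP Ω)]
    [IsScalarTower k₂ W.F0 (UP Ω)]
    (hcP : ∀ i I, ∃ u : k₂, algebraMap k₂ W.F0 u = (P i).coeff I)
    (hcH : ∀ i I, ∃ u : k₂, algebraMap k₂ W.F0 u = (H i).coeff I)
    {j : Fin (m + 1) → Fin (n + 1)}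
    (hind : m = 0 ∨ AlgebraicIndependent k₂ (fun i => xg (j i)))
    (hbig : ∀ C : ℕ, ¬ ∀ᶠ N in (Filter.hyperfilter ℕ : Filter ℕ),
      height κ (x N) ≤ C * (W.T N : ℤ)) :
    ∃ (M : IntermediateField W.F0 (UP Ω)) (γ : Fin (n + 1) → M)
      (_ : Algebra (RatFunc W.F0) M) (_ : IsScalarTower W.F0 (RatFunc W.F0) M)
      (_ : FiniteDimensional (RatFunc W.F0) M) (B : Finset (Place W.F0 M)),
      (∀ u ∈ M, u ∈ tmE W E) ∧ (∀ i, (γ i : UP Ω) = germHom (fun N => (x N i : Ω))) ∧
      (∀ v ∈ B, ∃ j, 0 < ordV v (d j) (aeval γ (H j)) γ) ∧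
      0 < height W.F0 γ ∧
      ((∑ i, (e i : ℚ)) + ∑ j, (d j : ℚ) - (n + 1)) * height W.F0 γ ≤
        ramDeg W.F0 M (RatFunc W.F0) - 2 * finrank (RatFunc W.F0) M + B.card := by
  classical
  have hcΩ : CharZero Ω := charZero_of_injective_algebraMap (algebraMap κ Ω).injective
  have hcUP : CharZero (UP Ω) := charZero_of_injective_ringHom (constHom (L := Ω)).injective
  have hxgl : xg l = 1 := by
    rw [hxg]
    have : (fun N => (x N l : Ω)) = 1 := funext fun N => by rw [hxl]; rfl
    show germHom (fun N => (x N l : Ω)) = 1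
    rw [this, map_one]
  -- the coordinates are not all in `F0`
  obtain ⟨jn, hjn⟩ : ∃ j, xg j ∉ W.F0 := by
    by_contra hcon
    push Not at hcon
    obtain ⟨C', hC'⟩ := height_le_of_mem_F0E hE (x := x) (fun N h0 => by
      have h2 := congrFun h0 l
      rw [hxl] at h2
      exact one_ne_zero h2) (fun j => by
        have h1 := hcon j
        rw [hxg] at h1
        exact h1)
    exact hbig C' hC'
  have hjnM : ∀ c : W.F0, algebraMap W.F0 (UP Ω) c ≠ xg jn := by
    intro c hcc
    apply hjn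
    rw [← hcc]
    exact c.2
  -- the field of the curve
  have hMff : IsFF W.F0 (IntermediateField.adjoin W.F0 (Set.range xg)) := by
    refine isFF_of_rows (R := Fin a ⊕ Fin m) (G := Sum.elim P G) (l := l) (jn := jn) ?_ ?_ ?_ ?_
      hxgl hjnM
    · rw [Fintype.card_sum, Fintype.card_fin, Fintype.card_fin]
      omega
    · rintro (i | i)
      · exact hPx i
      · exact hG i
    · rintro (i | i)
      · rw [Sum.elim_inl, euler_aeval (hP i), hPx, mul_zero]
      · exact hGe i
    · have h1 : (fun r k => aeval xg (pderiv k ((Sum.elim P G : Fin a ⊕ Fin m →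
          MvPolynomial (Fin (n + 1)) W.F0) r)) : Fin a ⊕ Fin m → Fin (n + 1) → UP Ω) =
          Sum.elim (fun i l => aeval xg (pderiv l (P i)))
            (fun i l => aeval xg (pderiv l (G i))) := by
        funext r k
        rcases r with i | i <;> rfl
      rw [h1]
      exact hli
  obtain ⟨M, hM⟩ : ∃ M : IntermediateField W.F0 (UP Ω),
      M = IntermediateField.adjoin W.F0 (Set.range xg) := ⟨_, rfl⟩
  rw [← hM] at hMff
  have hxM : ∀ j, xg j ∈ M := fun j => by
    rw [hM]
    exact IntermediateField.subset_adjoin _ _ ⟨j, rfl⟩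
  have hMtm : ∀ u ∈ M, u ∈ tmE W E := by
    intro u hu
    have h1 : IntermediateField.adjoin W.F0 (Set.range xg) ≤ tmE W E := by
      rw [IntermediateField.adjoin_le_iff]
      rintro z ⟨j, rfl⟩
      rw [hxg]
      exact germ_mem_tmE _
    rw [hM] at hu
    exact h1 hu
  obtain ⟨γ, hγx⟩ : ∃ γ : Fin (n + 1) → M, ∀ j, (γ j : UP Ω) = xg j :=
    ⟨fun j => ⟨_, hxM j⟩, fun _ => rfl⟩
  have hγ : ∀ j, (γ j : UP Ω) = germHom (fun N => (x N j : Ω)) := by
    intro j
    rw [hγx, hxg]
  have hγl : γ l = 1 := Subtype.ext ((hγx l).trans hxgl)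
  have hγ0 : γ ≠ 0 := fun h0 => one_ne_zero (hγl.symm.trans (congrFun h0 l))
  have hval : ∀ Q : MvPolynomial (Fin (n + 1)) W.F0, ((aeval γ Q : M) : UP Ω) = aeval xg Q := by
    intro Q
    have h1 := aeval_algebraMap_apply (B := UP Ω) γ Q
    refine h1.symm.trans ?_
    congr 2
    exact funext hγx
  have hPγ : ∀ i, aeval γ (P i) = 0 := fun i => Subtype.ext (by
    rw [hval, hPx]
    rfl)
  have hHγ : ∀ j, aeval γ (H j) ≠ 0 := fun j h0 => hHx j (by
    rw [← hval, h0]
    rfl)
  -- the genericity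
  obtain ⟨j', hind'⟩ : ∃ j' : Fin (m + 1) → Fin (n + 1),
      AlgebraicIndependent k₂ (fun i => xg (j' i)) := by
    rcases hind with h0 | h0
    · subst h0
      refine ⟨fun _ => jn, ?_⟩
      let _ : Unique (Fin (0 + 1)) := inferInstanceAs (Unique (Fin 1))
      rw [algebraicIndependent_unique_type_iff]
      intro halg
      have h1 : IsAlgebraic W.F0 (xg jn) := halg.extendScalars (algebraMap k₂ W.F0).injective
      exact hjnM ⟨_, mem_F0_of_isAlgebraic h1⟩ rfl
    · exact ⟨j, h0⟩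
  have hgenM : AlgebraicIndependent k₂ (fun i => γ (j' i) / γ l) := by
    refine AlgebraicIndependent.of_comp ((M.val).restrictScalars k₂) ?_
    have h2 : (((M.val).restrictScalars k₂) ∘ fun i => γ (j' i) / γ l) =
        fun i => xg (j' i) := by
      funext i
      show ((γ (j' i) / γ l : M) : UP Ω) = xg (j' i)
      rw [hγl, div_one, hγx]
    rw [h2]
    exact hind'
  -- the places
  obtain ⟨B, hB⟩ := exists_bdry_places hMff (d := d) hγ0 (Λ := Finset.univ)
    (v := fun j => aeval γ (H j)) (fun j _ => hHγ j)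
  have hhpos : 0 < height W.F0 γ := height_pos_of hMff (l := l) (k := jn)
    (by rw [hγl]; exact one_ne_zero) (fun u hu => hjnM u (by
      rw [hγl, div_one] at hu
      rw [← hγx jn, ← hu]
      rfl))
  obtain ⟨t, ht⟩ := hMff
  refine with_ratFunc (κ := W.F0) (L := M) ⟨t, ht⟩ ht.1 ?_
  intro i1 i2 i3 _
  have hadj := adj_NC (k₁ := k₂) (F := W.F0) (M := M) hn he hP hH hNC hcP hcH hPγ hHγ
    (l := l) (by rw [hγl]; exact one_ne_zero) hgenM ⟨jn, fun c hc => hjnM c (by
      rw [hγl, div_one] at hc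
      rw [← hγx jn, ← hc]
      rfl)⟩ B (fun v j hv => (hB v).2 ⟨j, Finset.mem_univ _, hv⟩)
  refine ⟨M, γ, i1, i2, i3, B, hMtm, hγ, fun v hv => ?_, hhpos, ?_⟩
  · obtain ⟨j, -, hj⟩ := (hB v).1 hv
    exact ⟨j, hj⟩
  · linarith

end

end Pool.Agent.Lib.MP_44a246_ntNC
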