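import Mathlib
import Pool.Agent.Lib.MP_44a246_ntNC.NC08

/-!
# Generic sequences of points and forms
-/

namespace Pool.Agent.Lib.MP_44a246_ntNC

open Pool.Agent.Lib.MP_e52354_nt
open Pool.Agent.Lib.MP_44a246_nt
open Pool.Agent.Lib.MP_44a246_ntL
open Pool.Agent.Lib.MP_44a246_ntSH
open Pool.Agent.Lib.MP_44a246_ntSF
open MvPolynomial

variable {κ K Ω : Type*} [Field κ] [IsAlgClosed κ] [CharZero κ]
  [Field K] [Algebra κ K] [Field Ω] [Algebra K Ω] [Algebra κ Ω] [IsScalarTower κ K Ω]
  {W : Tow κ K Ω}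

/-- **The germ of a generic sequence is generic** over the field of the coefficients. -/
theorem gen_germ [CharZero Ω] [CharZero W.F0] {I : Type*} {m : ℕ}
    {y : I → W.F0} {Y : ℕ → I → Ω}
    (hy : ∀ s, algebraMap W.F0 (UP Ω) (y s) = germHom (fun N => Y N s))
    [Algebra (IntermediateField.adjoin ℚ (Set.range y)) (UP Ω)]
    (hal : ∀ u : IntermediateField.adjoin ℚ (Set.range y), algebraMap _ (UP Ω) u =
      algebraMap W.F0 (UP Ω) (u : W.F0))
    {z : ℕ → Fin m → Ω}
    (hgen : ∀ g : MvPolynomial (Fin m) (MvPolynomial I ℚ), ∃ N₀, ∀ N ≥ N₀,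
      spec (Y N) g = 0 ∨ eval (z N) (spec (Y N) g) ≠ 0) :
    AlgebraicIndependent (IntermediateField.adjoin ℚ (Set.range y))
      (fun i => (germHom (fun N => z N i) : UP Ω)) := by
  classical
  have hcUP : CharZero (UP Ω) := charZero_of_injective_ringHom (constHom (L := Ω)).injective
  rw [algebraicIndependent_iff]
  intro Q hQ
  by_contra hQ0
  obtain ⟨g, c, hc, hg⟩ := exists_spec y Q
  have hg0 : spec y g ≠ 0 := by
    rw [hg]
    refine mul_ne_zero (fun h => hc ((C_eq_zero).1 h)) fun h => hQ0 ?_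
    exact (map_eq_zero_iff _ (map_injective _
      (algebraMap (IntermediateField.adjoin ℚ (Set.range y)) W.F0).injective)).1 h
  obtain ⟨G, hG⟩ : ∃ G : MvPolynomial (Fin m) (ℕ → Ω),
      G = spec (fun (s : I) (N : ℕ) => Y N s) g := ⟨_, rfl⟩
  have h1 : (spec y g).map (algebraMap W.F0 (UP Ω)) = G.map germHom := by
    rw [hG, map_spec, map_spec]
    congr 1
    exact funext hy
  have h2 : ∀ N, G.map (Pi.evalRingHom (fun _ => Ω) N) = spec (Y N) g := by
    intro N
    rw [hG, map_spec]
    rfl
  have h3 : eval (fun i => (germHom (fun N => z N i) : UP Ω))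
      ((spec y g).map (algebraMap W.F0 (UP Ω))) = 0 := by
    rw [hg, map_mul, map_mul, map_map]
    have h4 : eval (fun i => (germHom (fun N => z N i) : UP Ω)) (Q.map ((algebraMap W.F0
        (UP Ω)).comp (algebraMap (IntermediateField.adjoin ℚ (Set.range y)) W.F0))) = 0 := by
      rw [← hQ, eval_map, aeval_def]
      congr 1
      ext u
      exact (hal u).symm
    rw [h4, mul_zero]
  rw [h1, eval_map_germ, germHom_eq_zero_iff] at h3
  simp only [h2] at h3
  obtain ⟨N₀, hN₀⟩ := hgen g
  have h4 : ∀ᶠ N in (Filter.hyperfilter ℕ : Filter ℕ), spec (Y N) g = 0 := by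
    filter_upwards [h3, Filter.Eventually.filter_mono
      Nat.hyperfilter_le_atTop (Filter.eventually_ge_atTop N₀)] with N hN1 hN2
    exact (hN₀ N hN2).resolve_right fun h => h hN1
  apply hg0
  refine MvPolynomial.ext _ _ fun J => ?_
  rw [coeff_zero]
  apply (algebraMap W.F0 (UP Ω)).injective
  have h5 := congrArg (fun T => coeff J T) h1
  simp only [coeff_map] at h5
  rw [h5, map_zero, germHom_eq_zero_iff]
  filter_upwards [h4] with N hN
  have h6 := congrArg (fun T => coeff J T) (h2 N)
  simp only [coeff_map] at h6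
  have h7 : G.coeff J N = (spec (Y N) g).coeff J := h6
  rw [h7, hN, coeff_zero]

/-- normal crossings for the forms over an extension field -/
theorem NCAt.map {K A : Type*} [Field K] [Field A] [Algebra K A] {N : ℕ} {ι Λ : Type*}
    {F : ι → MvPolynomial (Fin N) K} {H : Λ → MvPolynomial (Fin N) K} (h : NCAt F H A) :
    NCAt (fun i => (F i).map (algebraMap K A)) (fun j => (H j).map (algebraMap K A)) A := by
  intro J z hz hF hH
  have h1 := h J z hz (fun i => by
    rw [← hF i, aeval_map_algebraMap]) (fun j hj => by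
    rw [← hH j hj, aeval_map_algebraMap])
  convert h1 using 1
  funext s l
  rcases s with i | j
  · rw [Sum.elim_inl, Sum.elim_inl, pderiv_map, aeval_map_algebraMap]
  · rw [Sum.elim_inr, Sum.elim_inr, pderiv_map, aeval_map_algebraMap]

end Pool.Agent.Lib.MP_44a246_ntNC
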