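import Mathlib
import Pool.Agent.Lib.MP_44a246_ntNC.NC06
import Pool.Agent.Lib.MP_44a246_ntNC.NC07
import Pool.Agent.Lib.MP_44a246_ntNC.NC09

/-!
# No generic sequence of counterexamples
-/

namespace Pool.Agent.Lib.MP_44a246_ntNC

open Pool.Agent.Lib.MP_e52354_nt
open Pool.Agent.Lib.MP_44a246_nt
open Pool.Agent.Lib.MP_44a246_ntL
open Pool.Agent.Lib.MP_44a246_ntS
open Pool.Agent.Lib.MP_44a246_ntSH
open Pool.Agent.Lib.MP_44a246_ntSP
open Pool.Agent.Lib.MP_44a246_ntUV
open Pool.Agent.Lib.MP_44a246_ntTM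
open Pool.Agent.Lib.MP_44a246_ntMY
open WithZero MvPolynomial Module

universe u v w

/-- the coefficients of the forms -/
noncomputable def cfs {A : Type*} [CommRing A] {n a p : ℕ} (F : Fin a → MvPolynomial (Fin n) A)
    (H : Fin p → MvPolynomial (Fin n) A) (s : (Fin a ⊕ Fin p) × (Fin n →₀ ℕ)) : A :=
  (Sum.elim F H s.1).coeff s.2

/-- the value at a point with coordinates in a subfield -/
theorem eval_coe {E Ω : Type*} [Field E] [Field Ω] [Algebra E Ω] {m : ℕ} (z : Fin m → E)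
    (T : MvPolynomial (Fin m) E) :
    eval (fun j => algebraMap E Ω (z j)) (T.map (algebraMap E Ω)) = algebraMap E Ω (eval z T) := by
  rw [eval_map]
  have h1 := (eval₂_comp_left (algebraMap E Ω) (RingHom.id E) z T).symm
  rw [RingHom.comp_id] at h1
  exact h1

/-- **No generic sequence of counterexamples.** -/
theorem seq_false {κ : Type u} {K : Type v} {Ω : Type v} [Field κ] [IsAlgClosed κ]
    [CharZero κ] [Field K] [Algebra κ K] [Field Ω] [CharZero Ω] [Algebra K Ω] [Algebra κ Ω]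
    [IsScalarTower κ K Ω] [IsAlgClosed Ω] [Algebra.IsAlgebraic K Ω] (hK : IsFF κ K)
    (hMY : MYP.{u, v} κ) {n a p m b r₀ : ℕ} (hn : a + (m + 1) = n)
    {e : Fin a → ℕ} (he : ∀ i, 1 ≤ e i) {d : Fin p → ℕ}
    {E : ℕ → IntermediateField (⊥ : IntermediateField K Ω) Ω}
    (hEf : ∀ N, FiniteDimensional (⊥ : IntermediateField K Ω) (E N))
    (hEr : ∀ N, finrank (⊥ : IntermediateField K Ω) (E N) ≤ r₀)
    {F : ∀ N, Fin a → MvPolynomial (Fin (n + 1)) (E N)}
    {H : ∀ N, Fin p → MvPolynomial (Fin (n + 1)) (E N)}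
    {g : ∀ N, Fin m → MvPolynomial (Fin (n + 1)) (E N)} {δ : ℕ → Fin m → ℕ}
    (hF : ∀ N i, (F N i).IsHomogeneous (e i)) (hH : ∀ N j, (H N j).IsHomogeneous (d j))
    (hg : ∀ N i, (g N i).IsHomogeneous (δ N i)) (hδ : ∀ N i, δ N i ≤ b)
    (hF1 : ∀ N i, ∃ I, (F N i).coeff I = 1) (hH1 : ∀ N i, ∃ I, (H N i).coeff I = 1)
    (hg1 : ∀ N i, ∃ I, (g N i).coeff I = 1)
    (hNC : ∀ N, NCAt (F N) (H N) Ω)
    {x : ∀ N, Fin (n + 1) → E N} {l : Fin (n + 1)} (hxl : ∀ N, x N l = 1)
    (hFx : ∀ N i, eval (x N) (F N i) = 0) (hHx : ∀ N j, eval (x N) (H N j) ≠ 0)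
    (hgx : ∀ N i, eval (x N) (g N i) = 0)
    (hli : ∀ N, LinearIndependent (E N) (Sum.elim (fun i l => eval (x N) (pderiv l (F N i)))
      (fun i l => eval (x N) (pderiv l (g N i))) : Fin a ⊕ Fin m → Fin (n + 1) → E N))
    {T : ℕ → ℕ} (hT1 : ∀ N, 1 ≤ T N) (hTF : ∀ N i, polyHeight κ (F N i) ≤ (T N : ℤ))
    (hTH : ∀ N i, polyHeight κ (H N i) ≤ (T N : ℤ))
    (hTg : ∀ N i, polyHeight κ (g N i) ≤ (T N : ℤ))
    {j : Fin (m + 1) → Fin (n + 1)}
    (hgen : m = 0 ∨ ∀ q : MvPolynomial (Fin (m + 1))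
        (MvPolynomial ((Fin a ⊕ Fin p) × (Fin (n + 1) →₀ ℕ)) ℚ), ∃ N₀, ∀ N ≥ N₀,
      spec (fun s => algebraMap (E N) Ω (cfs (F N) (H N) s)) q = 0 ∨
      eval (fun i => (x N (j i) : Ω))
        (spec (fun s => algebraMap (E N) Ω (cfs (F N) (H N) s)) q) ≠ 0)
    {S : ∀ N, Finset (Place κ (E N))}
    (hS : ∀ N, ∀ w : Place κ (E N), w ∉ S N → ∀ j,
      w.1 (eval (x N) (H N j)) = vmax w.1 (x N) ^ d j)
    {θ ε : ℝ} (hε : 0 < ε)
    (hθ : θ + ε ≤ (∑ i, e i : ℕ) + (∑ j, d j : ℕ) - (n + 1))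
    (hlarge : ∀ N : ℕ, (N : ℝ) * T N + ramDeg κ (E N) K + (S N).card < θ * height κ (x N)) :
    False := by
  classical
  -- the tower
  let T₀ : ℕ := finrank K (⊥ : IntermediateField K Ω) + ramDeg κ (⊥ : IntermediateField K Ω) K
  have hT₀ : 1 ≤ T₀ := by
    have h1 : 0 < finrank K (⊥ : IntermediateField K Ω) := Module.finrank_pos
    exact Nat.le_add_right_of_le h1
  let W : Tow κ K Ω := {
    L := fun _ => ⊥
    T := fun N => T₀ * T N
    ff := hK
    fin := fun _ => inferInstance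
    one_le := fun N => Nat.mul_pos hT₀ (hT1 N)
    deg := fun N => (Nat.le_add_right _ _).trans (Nat.le_mul_of_pos_right T₀ (hT1 N))
    ram := fun N => (Nat.le_add_left _ _).trans (Nat.le_mul_of_pos_right T₀ (hT1 N)) }
  have hWT : ∀ N, W.T N = T₀ * T N := fun _ => rfl
  have hTW : ∀ N, (T N : ℤ) ≤ ((1 : ℕ) : ℤ) * (W.T N : ℤ) := by
    intro N
    rw [Nat.cast_one, one_mul, hWT]
    exact_mod_cast Nat.le_mul_of_pos_left (T N) hT₀
  have hcUP : CharZero (UP Ω) := charZero_of_injective_ringHom (constHom (L := Ω)).injective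
  -- positivity
  have hff : ∀ N, IsFF κ (E N) := fun N => (W.ffL N).of_finite
  have hx0 : ∀ N, x N ≠ 0 := fun N h0 => by
    have h1 := hxl N
    rw [h0] at h1
    simp at h1
  have hh0 : ∀ N, (0 : ℝ) ≤ height κ (x N) := fun N => by
    exact_mod_cast (hff N).height_nonneg (hx0 N)
  have hT0 : ∀ N, (1 : ℝ) ≤ T N := fun N => by exact_mod_cast hT1 N
  have hθ0 : 0 ≤ θ := by
    by_contra hcon
    push Not at hcon
    have h1 := hlarge 0
    have h2 : θ * (height κ (x 0) : ℝ) ≤ 0 := mul_nonpos_of_nonpos_of_nonneg hcon.le (hh0 0)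
    have h3 : (0 : ℝ) ≤ ramDeg κ (E 0) K := Nat.cast_nonneg _
    have h4 : (0 : ℝ) ≤ (S 0).card := Nat.cast_nonneg _
    rw [Nat.cast_zero, zero_mul] at h1
    linarith
  have hbig : ∀ C : ℕ, ¬ ∀ᶠ N in (Filter.hyperfilter ℕ : Filter ℕ),
      height κ (x N) ≤ C * (W.T N : ℤ) := by
    intro C' hC'
    obtain ⟨M, hM⟩ := exists_nat_gt (θ * (C' * T₀))
    obtain ⟨N, hN1, hN2⟩ := (hC'.and (Filter.Eventually.filter_mono
      Nat.hyperfilter_le_atTop (Filter.eventually_ge_atTop M))).exists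
    have h1 := hlarge N
    have h3 : (height κ (x N) : ℝ) ≤ C' * (T₀ * T N) := by
      rw [hWT] at hN1
      exact_mod_cast hN1
    have h4 : θ * height κ (x N) ≤ θ * (C' * (T₀ * T N)) := mul_le_mul_of_nonneg_left h3 hθ0
    have h5 : (M : ℝ) ≤ N := by exact_mod_cast hN2
    have h6 : (0 : ℝ) ≤ ramDeg κ (E N) K := Nat.cast_nonneg _
    have h7 : (0 : ℝ) ≤ (S N).card := Nat.cast_nonneg _
    have h8 : θ * (C' * T₀) * T N ≤ N * T N :=
      mul_le_mul_of_nonneg_right (by linarith) (by linarith [hT0 N])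
    have h9 : θ * (C' * (T₀ * T N)) = θ * (C' * T₀) * T N := by ring
    linarith
  -- the limit forms
  choose P hPg using fun i => exists_germOf (W := W) (E := E) hEr (b := e i) (C' := 1)
    (fun N => F N i) (fun N => (hF N i).totalDegree_le) (fun N => hF1 N i)
    (fun N => (hTF N i).trans (hTW N))
  choose Q hQg using fun i => exists_germOf (W := W) (E := E) hEr (b := d i) (C' := 1)
    (fun N => H N i) (fun N => (hH N i).totalDegree_le) (fun N => hH1 N i)
    (fun N => (hTH N i).trans (hTW N))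
  choose G hGg using fun i => exists_germOf (W := W) (E := E) hEr (b := b) (C' := 1)
    (fun N => g N i) (fun N => (hg N i).totalDegree_le.trans (hδ N i)) (fun N => hg1 N i)
    (fun N => (hTg N i).trans (hTW N))
  obtain ⟨xg, hxg⟩ : ∃ xg : Fin (n + 1) → UP Ω, xg = fun j => germHom (fun N => (x N j : Ω)) :=
    ⟨_, rfl⟩
  have hPhom : ∀ i, (P i).IsHomogeneous (e i) := fun i =>
    (hPg i).isHomogeneous fun N => (hF N i).map _
  have hQhom : ∀ i, (Q i).IsHomogeneous (d i) := fun i =>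
    (hQg i).isHomogeneous fun N => (hH N i).map _
  have hNC' : NCAt P Q W.F0 :=
    NCAt.of_extension (nc_germ (W := W) hPg hQg fun N => (hNC N).map)
  have hPx : ∀ i, aeval xg (P i) = 0 := by
    intro i
    rw [hxg, (hPg i).aeval, germHom_eq_zero_iff]
    refine Filter.Eventually.of_forall fun N => ?_
    have h1 := eval_coe (Ω := Ω) (x N) (F N i)
    rw [hFx, map_zero] at h1
    exact h1
  have hQx' : ∀ i, aeval xg (Q i) = germHom (fun N => ((eval (x N) (H N i) : E N) : Ω)) := by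
    intro i
    rw [hxg, (hQg i).aeval]
    congr 1
    funext N
    exact eval_coe (Ω := Ω) (x N) (H N i)
  have hQx : ∀ i, aeval xg (Q i) ≠ 0 := by
    intro i h0
    rw [hQx', germHom_eq_zero_iff] at h0
    obtain ⟨N, hN⟩ := h0.exists
    exact hHx N i (Subtype.ext hN)
  have hGx : ∀ i, aeval xg (G i) = 0 := by
    intro i
    rw [hxg, (hGg i).aeval, germHom_eq_zero_iff]
    refine Filter.Eventually.of_forall fun N => ?_
    have h1 := eval_coe (Ω := Ω) (x N) (g N i)
    rw [hgx, map_zero] at h1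
    exact h1
  have hGe : ∀ i, ∑ k, xg k * aeval xg (pderiv k (G i)) = 0 := by
    intro i
    have h1 : ∀ k, xg k * aeval xg (pderiv k (G i)) =
        germHom (fun N => ((x N k * eval (x N) (pderiv k (g N i)) : E N) : Ω)) := by
      intro k
      rw [hxg, ((hGg i).pderiv k).aeval]
      have h2 : (fun N => eval (fun j => (x N j : Ω))
          (pderiv k ((g N i).map (algebraMap (E N) Ω)))) =
          fun N => ((eval (x N) (pderiv k (g N i)) : E N) : Ω) := by
        funext N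
        rw [pderiv_map]
        exact eval_coe (Ω := Ω) (x N) (pderiv k (g N i))
      rw [h2, ← map_mul]
      rfl
    rw [Finset.sum_congr rfl fun k _ => h1 k, ← map_sum, germHom_eq_zero_iff]
    refine Filter.Eventually.of_forall fun N => ?_
    rw [Finset.sum_apply]
    have h2 := euler_form (hg N i) (x N)
    rw [hgx, mul_zero] at h2
    have h3 : ((∑ k, x N k * eval (x N) (pderiv k (g N i)) : E N) : Ω) = 0 := by
      rw [h2]
      rfl
    rw [← h3]
    push_cast
    rfl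
  have hliG : LinearIndependent (UP Ω) (Sum.elim (fun i l => aeval xg (pderiv l (P i)))
      (fun i l => aeval xg (pderiv l (G i))) : Fin a ⊕ Fin m → Fin (n + 1) → UP Ω) := by
    have h1 := li_germ (fun N => (fun r c => (((Sum.elim
      (fun i l => eval (x N) (pderiv l (F N i)))
      (fun i l => eval (x N) (pderiv l (g N i))) : Fin a ⊕ Fin m → Fin (n + 1) → E N) r c :
        E N) : Ω) : Fin a ⊕ Fin m → Fin (n + 1) → Ω)) (Filter.Eventually.of_forall fun N => by
      obtain ⟨c, hc⟩ := Pool.Agent.Lib.MP_44a246_ntN.exists_minor _ (hli N)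
      refine li_of_minor _ c fun h0 => hc ?_
      apply (algebraMap (E N) Ω).injective
      rw [map_zero, RingHom.map_det]
      exact h0)
    have h2 : (Sum.elim (fun i l => aeval xg (pderiv l (P i)))
        (fun i l => aeval xg (pderiv l (G i))) : Fin a ⊕ Fin m → Fin (n + 1) → UP Ω) =
        fun r c => germHom (fun N => (((Sum.elim
      (fun i l => eval (x N) (pderiv l (F N i)))
      (fun i l => eval (x N) (pderiv l (g N i))) : Fin a ⊕ Fin m → Fin (n + 1) → E N) r c :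
        E N) : Ω)) := by
      funext r c
      rcases r with i | i
      · rw [Sum.elim_inl, hxg, ((hPg i).pderiv c).aeval]
        congr 1
        funext N
        rw [pderiv_map]
        exact eval_coe (Ω := Ω) (x N) (pderiv c (F N i))
      · rw [Sum.elim_inr, hxg, ((hGg i).pderiv c).aeval]
        congr 1
        funext N
        rw [pderiv_map]
        exact eval_coe (Ω := Ω) (x N) (pderiv c (g N i))
    rw [h2]
    exact h1
  -- the field of the coefficients
  obtain ⟨y, hy⟩ : ∃ y : (Fin a ⊕ Fin p) × (Fin (n + 1) →₀ ℕ) → W.F0, y = cfs P Q := ⟨_, rfl⟩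
  have hyY : ∀ s, algebraMap W.F0 (UP Ω) (y s) =
      germHom (fun N => algebraMap (E N) Ω (cfs (F N) (H N) s)) := by
    rintro ⟨s, J⟩
    rw [hy]
    rcases s with i | i
    · show algebraMap W.F0 (UP Ω) ((P i).coeff J) = _
      rw [(hPg i).coeff]
      simp only [coeff_map]
      rfl
    · show algebraMap W.F0 (UP Ω) ((Q i).coeff J) = _
      rw [(hQg i).coeff]
      simp only [coeff_map]
      rfl
  have hind : m = 0 ∨ AlgebraicIndependent (IntermediateField.adjoin ℚ (Set.range y))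
      (fun i => xg (j i)) := by
    rcases hgen with h0 | h0
    · exact Or.inl h0
    · right
      rw [hxg]
      exact gen_germ (W := W) hyY (fun _ => rfl) (z := fun N i => (x N (j i) : Ω)) h0
  obtain ⟨M, γ, i1, i2, i3, B, hM, hγ, hB, hγ0, hk⟩ :=
    limit_NC W (E := E) hEr hn he hPhom hQhom hNC' hxl hxg hPx hQx hGx hGe hliG
      (k₂ := IntermediateField.adjoin ℚ (Set.range y))
      (fun i I => ⟨⟨_, IntermediateField.subset_adjoin ℚ _ ⟨(Sum.inl i, I), rfl⟩⟩, by
        rw [hy]; rfl⟩)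
      (fun i I => ⟨⟨_, IntermediateField.subset_adjoin ℚ _ ⟨(Sum.inr i, I), rfl⟩⟩, by
        rw [hy]; rfl⟩) (j := j) hind hbig
  obtain ⟨a', ha'⟩ : ∃ a' : ℝ, a' = height W.F0 γ := ⟨_, rfl⟩
  have ha1 : 1 ≤ a' := by
    rw [ha']
    exact_mod_cast hγ0
  have hyg : ∀ j, ((aeval γ (Q j) : M) : UP Ω) =
      germHom (fun N => ((eval (x N) (H N j) : E N) : Ω)) := by
    intro j
    rw [← hQx' j]
    have h1 := aeval_algebraMap_apply (B := UP Ω) γ (Q j)
    refine h1.symm.trans ?_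
    congr 2
    rw [hxg]
    exact funext hγ
  obtain ⟨C', hC'⟩ := limit_MYv hMY W (E := E) hEr hM hxl hγ hγ0
    (y := fun j N => eval (x N) (H N j)) hyg hHx B hB S
    (Filter.Eventually.of_forall fun N w hw j => hS N w hw j)
    (ε := a' * ε / 2) (by positivity)
  obtain ⟨M', hM'⟩ := exists_nat_gt ((C' : ℝ) * T₀)
  obtain ⟨N, hN1, hN2⟩ := (hC'.and (Filter.Eventually.filter_mono
    Nat.hyperfilter_le_atTop (Filter.eventually_ge_atTop M'))).exists
  have hl := hlarge N
  rw [hWT, ← ha'] at hN1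
  have hkR : ((∑ i, e i : ℕ) + (∑ j, d j : ℕ) - (n + 1) : ℝ) * a' ≤
      (ramDeg W.F0 M (RatFunc W.F0) : ℝ) - 2 * finrank (RatFunc W.F0) M + B.card := by
    rw [ha']
    have h1 := (Rat.cast_le (K := ℝ)).2 hk
    push_cast at h1 ⊢
    exact h1
  obtain ⟨Q', hQ'⟩ : ∃ Q : ℝ, Q = (ramDeg W.F0 M (RatFunc W.F0) : ℝ) -
    2 * finrank (RatFunc W.F0) M + B.card := ⟨_, rfl⟩
  rw [← hQ'] at hkR hN1
  obtain ⟨h, hh⟩ : ∃ h : ℝ, h = height κ (x N) := ⟨_, rfl⟩
  have hh1 := hh0 N
  rw [← hh] at hN1 hl hh1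
  have h1 : (θ + ε) * a' ≤ Q' := (mul_le_mul_of_nonneg_right hθ (by linarith)).trans hkR
  have h2 : (θ + ε) * a' * h ≤ Q' * h := mul_le_mul_of_nonneg_right h1 hh1
  have h3 : a' * ((N : ℝ) * T N + ramDeg κ (E N) K + (S N).card) ≤ a' * (θ * h) :=
    mul_le_mul_of_nonneg_left hl.le (by linarith)
  have h4 : (0 : ℝ) ≤ a' * ε * h := by
    have := hε.le
    have ha0 : 0 ≤ a' := by linarith
    exact mul_nonneg (mul_nonneg ha0 this) hh1
  have h5 : (M' : ℝ) ≤ N := by exact_mod_cast hN2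
  have hTN := hT0 N
  have h6 : (C' : ℝ) * T₀ * T N < a' * (N * T N) := by
    have h7 : (C' : ℝ) * T₀ * T N < N * T N :=
      mul_lt_mul_of_pos_right (by linarith) (by linarith)
    have h8 : (N : ℝ) * T N ≤ a' * (N * T N) :=
      le_mul_of_one_le_left (by positivity) ha1
    linarith
  push_cast at hN1
  have h9 : (Q' - a' * ε / 2) * h ≤
      a' * ((S N).card + ramDeg κ (E N) K) + C' * (T₀ * T N) := hN1
  have h10 : a' * ((N : ℝ) * T N + ramDeg κ (E N) K + (S N).card) =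
    a' * (N * T N) + a' * ((S N).card + ramDeg κ (E N) K) := by ring
  have h11 : (C' : ℝ) * (T₀ * T N) = C' * T₀ * T N := by ring
  have h12 : (Q' - a' * ε / 2) * h = Q' * h - a' * ε * h / 2 := by ring
  have h13 : (θ + ε) * a' * h = a' * (θ * h) + a' * ε * h := by ring
  linarith

end Pool.Agent.Lib.MP_44a246_ntNC
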