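import Mathlib
import Pool.Agent.Lib.MP_44a246_ntNC.NC10

/-!
# The exceptional polynomials
-/

namespace Pool.Agent.Lib.MP_44a246_ntNC

open Pool.Agent.Lib.MP_e52354_nt
open Pool.Agent.Lib.MP_44a246_nt
open Pool.Agent.Lib.MP_44a246_ntL
open Pool.Agent.Lib.MP_44a246_ntS
open Pool.Agent.Lib.MP_44a246_ntSH
open Pool.Agent.Lib.MP_44a246_ntSP
open Pool.Agent.Lib.MP_44a246_ntUV
open Pool.Agent.Lib.MP_44a246_ntTM
open Pool.Agent.Lib.MP_44a246_ntMY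
open WithZero MvPolynomial Module

universe u v w

/-- the universal polynomials -/
abbrev UPoly (a p n m : ℕ) : Type :=
  MvPolynomial (Fin (m + 1)) (MvPolynomial ((Fin a ⊕ Fin p) × (Fin (n + 1) →₀ ℕ)) ℚ)

/-- `x` is a counterexample with the constant `N`, for the pair given by `F` and `H` -/
def Bad (κ : Type*) {K Ω : Type*} [Field κ] [Field K] [Algebra κ K] [Field Ω] [Algebra K Ω]
    [Algebra κ Ω] [IsScalarTower κ K Ω] {n a p : ℕ} (m : ℕ) (e : Fin a → ℕ) (d : Fin p → ℕ)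
    (b r₀ : ℕ) (θ : ℝ) (N : ℕ) (l : Fin (n + 1))
    (E : IntermediateField (⊥ : IntermediateField K Ω) Ω)
    (F : Fin a → MvPolynomial (Fin (n + 1)) E) (H : Fin p → MvPolynomial (Fin (n + 1)) E)
    (x : Fin (n + 1) → E) : Prop :=
  FiniteDimensional (⊥ : IntermediateField K Ω) E ∧
  finrank (⊥ : IntermediateField K Ω) E ≤ r₀ ∧
  (∀ i, (F i).IsHomogeneous (e i)) ∧ (∀ j, (H j).IsHomogeneous (d j)) ∧
  (∀ i, ∃ I, (F i).coeff I = 1) ∧ (∀ i, ∃ I, (H i).coeff I = 1) ∧ NCAt F H Ω ∧ x l = 1 ∧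
  (∀ i, eval x (F i) = 0) ∧ (∀ j, eval x (H j) ≠ 0) ∧
  ∃ (g : Fin m → MvPolynomial (Fin (n + 1)) E) (δ : Fin m → ℕ) (S : Finset (Place κ E)) (T : ℕ),
    (∀ i, (g i).IsHomogeneous (δ i)) ∧ (∀ i, δ i ≤ b) ∧ (∀ i, ∃ I, (g i).coeff I = 1) ∧
    (∀ i, eval x (g i) = 0) ∧
    LinearIndependent E (Sum.elim (fun i l => eval x (pderiv l (F i)))
      (fun i l => eval x (pderiv l (g i))) : Fin a ⊕ Fin m → Fin (n + 1) → E) ∧
    1 ≤ T ∧ (∀ i, polyHeight κ (F i) ≤ (T : ℤ)) ∧ (∀ i, polyHeight κ (H i) ≤ (T : ℤ)) ∧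
    (∀ i, polyHeight κ (g i) ≤ (T : ℤ)) ∧
    (∀ w ∉ S, ∀ j, w.1 (eval x (H j)) = vmax w.1 x ^ d j) ∧
    (N : ℝ) * T + ramDeg κ E K + S.card < θ * height κ x

theorem Bad.mono {κ K Ω : Type*} [Field κ] [Field K] [Algebra κ K] [Field Ω] [Algebra K Ω]
    [Algebra κ Ω] [IsScalarTower κ K Ω] {n a p m : ℕ} {e : Fin a → ℕ} {d : Fin p → ℕ}
    {b r₀ : ℕ} {θ : ℝ} {N N' : ℕ} (hN : N ≤ N') {l : Fin (n + 1)}
    {E : IntermediateField (⊥ : IntermediateField K Ω) Ω}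
    {F : Fin a → MvPolynomial (Fin (n + 1)) E} {H : Fin p → MvPolynomial (Fin (n + 1)) E}
    {x : Fin (n + 1) → E} (h : Bad κ m e d b r₀ θ N' l E F H x) :
    Bad κ m e d b r₀ θ N l E F H x := by
  obtain ⟨h1, h2, h3, h4, h5, h6, h7, h8, h9, h10, g, δ, S, T, k1, k2, k3, k4, k5, k6, k7, k8,
    k9, k10, k11⟩ := h
  refine ⟨h1, h2, h3, h4, h5, h6, h7, h8, h9, h10, g, δ, S, T, k1, k2, k3, k4, k5, k6, k7, k8,
    k9, k10, lt_of_le_of_lt ?_ k11⟩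
  have h11 : (N : ℝ) * T ≤ N' * T :=
    mul_le_mul_of_nonneg_right (by exact_mod_cast hN) (Nat.cast_nonneg _)
  linarith

/-- **The exceptional polynomials.** -/
theorem exc_bad {κ : Type u} {K : Type v} {Ω : Type v} [Field κ] [IsAlgClosed κ]
    [CharZero κ] [Field K] [Algebra κ K] [Field Ω] [CharZero Ω] [Algebra K Ω] [Algebra κ Ω]
    [IsScalarTower κ K Ω] [IsAlgClosed Ω] [Algebra.IsAlgebraic K Ω] (hK : IsFF κ K)
    (hMY : MYP.{u, v} κ) {n a p m : ℕ} (b r₀ : ℕ) (hn : a + (m + 1) = n)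
    {e : Fin a → ℕ} (he : ∀ i, 1 ≤ e i) (d : Fin p → ℕ) {θ ε : ℝ} (hε : 0 < ε)
    (hθ : θ + ε ≤ (∑ i, e i : ℕ) + (∑ j, d j : ℕ) - (n + 1)) :
    ∃ (N : ℕ) (Q : Finset (UPoly a p n m)),
      ∀ (l : Fin (n + 1)) (E : IntermediateField (⊥ : IntermediateField K Ω) Ω)
        (F : Fin a → MvPolynomial (Fin (n + 1)) E) (H : Fin p → MvPolynomial (Fin (n + 1)) E)
        (x : Fin (n + 1) → E), Bad κ m e d b r₀ θ N l E F H x →
        1 ≤ m ∧ ∀ j : Fin (m + 1) → Fin (n + 1), ∃ q ∈ Q,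
          spec (fun s => algebraMap E Ω (cfs F H s)) q ≠ 0 ∧
          eval (fun i => (x (j i) : Ω)) (spec (fun s => algebraMap E Ω (cfs F H s)) q) = 0 := by
  classical
  have hc1 := countable_mvPoly ((Fin a ⊕ Fin p) × (Fin (n + 1) →₀ ℕ)) ℚ
  have hc2 : Countable (UPoly a p n m) := countable_mvPoly _ _
  obtain ⟨f, hf⟩ := exists_surjective_nat (UPoly a p n m)
  have key : ∀ (l : Fin (n + 1)) (j : Fin (m + 1) → Fin (n + 1)),
      ∃ (N : ℕ) (Q : Finset (UPoly a p n m)),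
      ∀ (E : IntermediateField (⊥ : IntermediateField K Ω) Ω)
        (F : Fin a → MvPolynomial (Fin (n + 1)) E) (H : Fin p → MvPolynomial (Fin (n + 1)) E)
        (x : Fin (n + 1) → E), Bad κ m e d b r₀ θ N l E F H x →
        1 ≤ m ∧ ∃ q ∈ Q,
          spec (fun s => algebraMap E Ω (cfs F H s)) q ≠ 0 ∧
          eval (fun i => (x (j i) : Ω)) (spec (fun s => algebraMap E Ω (cfs F H s)) q) = 0 := by
    intro l j
    by_contra hcon
    push Not at hcon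
    have h1 := fun N : ℕ => hcon N ((Finset.range N).image f)
    choose E F H x hbad hq using h1
    choose h1 h2 h3 h4 h5 h6 h7 h8 h9 h10 g δ S T k1 k2 k3 k4 k5 k6 k7 k8 k9 k10 k11 using hbad
    refine seq_false hK hMY (Ω := Ω) hn he h1 h2 h3 h4 k1 k2 h5 h6 k3 h7 h8 h9 h10 k4 k5 k6
      k7 k8 k9 (j := j) ?_ k10 hε hθ k11
    rcases Nat.eq_zero_or_pos m with h0 | h0
    · exact Or.inl h0
    · right
      intro q
      obtain ⟨i, hi⟩ := hf q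
      refine ⟨i + 1, fun N hN => ?_⟩
      by_cases hs : spec (fun s => algebraMap (E N) Ω (cfs (F N) (H N) s)) q = 0
      · exact Or.inl hs
      · right
        exact hq N h0 q (Finset.mem_image.2 ⟨i, Finset.mem_range.2 hN, hi⟩) hs
  choose N Q hNQ using key
  refine ⟨∑ t : Fin (n + 1) × (Fin (m + 1) → Fin (n + 1)), N t.1 t.2,
    Finset.univ.biUnion fun t : Fin (n + 1) × (Fin (m + 1) → Fin (n + 1)) => Q t.1 t.2, ?_⟩
  intro l E F H x hbad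
  have h1 : ∀ j : Fin (m + 1) → Fin (n + 1), N l j ≤
      ∑ t : Fin (n + 1) × (Fin (m + 1) → Fin (n + 1)), N t.1 t.2 := fun j =>
    Finset.single_le_sum (f := fun t : Fin (n + 1) × (Fin (m + 1) → Fin (n + 1)) => N t.1 t.2)
      (fun _ _ => Nat.zero_le _) (Finset.mem_univ (l, j))
  refine ⟨(hNQ l (fun _ => l) E F H x (hbad.mono (h1 _))).1, fun j => ?_⟩
  obtain ⟨-, q, hq, h2⟩ := hNQ l j E F H x (hbad.mono (h1 j))
  exact ⟨q, Finset.mem_biUnion.2 ⟨(l, j), Finset.mem_univ _, hq⟩, h2⟩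

end Pool.Agent.Lib.MP_44a246_ntNC
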