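import Mathlib
import Pool.Agent.Lib.MP_44a246_ntNC.NC11
import Pool.Agent.Lib.MP_44a246_ntTA.TA15

/-!
# The points over arbitrary extensions
-/

namespace Pool.Agent.Lib.MP_44a246_ntNC

open Pool.Agent.Lib.MP_e52354_nt
open Pool.Agent.Lib.MP_44a246_nt
open Pool.Agent.Lib.MP_44a246_ntL
open Pool.Agent.Lib.MP_44a246_ntS
open Pool.Agent.Lib.MP_44a246_ntSH
open Pool.Agent.Lib.MP_44a246_ntSP
open Pool.Agent.Lib.MP_44a246_ntUV
open Pool.Agent.Lib.MP_44a246_ntTM
open Pool.Agent.Lib.MP_44a246_ntMY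
open Pool.Agent.Lib.MP_44a246_ntTA (exists_embedB)
open WithZero MvPolynomial Module

universe u v w w'

/-- the value of a polynomial with coefficients in a smaller field -/
theorem aeval_mapHom {K K' A σ : Type*} [Field K] [Field K'] [Field A] [Algebra K A]
    [Algebra K' A] (φ : K →+* K') (hφ : ∀ u, algebraMap K' A (φ u) = algebraMap K A u)
    (z : σ → A) (P : MvPolynomial σ K) : aeval z (P.map φ) = aeval z P := by
  rw [aeval_def, aeval_def, eval₂_map]
  congr 1
  exact RingHom.ext hφ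

/-- normal crossings for the forms over an extension field -/
theorem NCAt.mapHom {K K' A : Type*} [Field K] [Field K'] [Field A] [Algebra K A]
    [Algebra K' A] (φ : K →+* K') (hφ : ∀ u, algebraMap K' A (φ u) = algebraMap K A u) {N : ℕ}
    {ι Λ : Type*} {F : ι → MvPolynomial (Fin N) K} {H : Λ → MvPolynomial (Fin N) K}
    (h : NCAt F H A) : NCAt (fun i => (F i).map φ) (fun j => (H j).map φ) A := by
  intro J z hz hF hH
  have h1 := h J z hz (fun i => by
    rw [← hF i, aeval_mapHom φ hφ]) (fun j hj => by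
    rw [← hH j hj, aeval_mapHom φ hφ])
  convert h1 using 1
  funext s l
  rcases s with i | j
  · rw [Sum.elim_inl, Sum.elim_inl, pderiv_map, aeval_mapHom φ hφ]
  · rw [Sum.elim_inr, Sum.elim_inr, pderiv_map, aeval_mapHom φ hφ]

/-- the height of a polynomial under an isomorphism -/
theorem polyHeight_placeEquiv {κ L L' : Type*} [Field κ] [Field L] [Field L'] [Algebra κ L]
    [Algebra κ L'] (e : L ≃+* L') (he : ∀ c : κ, e (algebraMap κ L c) = algebraMap κ L' c)
    {σ : Type*} (P : MvPolynomial σ L) :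
    polyHeight κ (P.map (e : L →+* L')) = polyHeight κ P := by
  classical
  unfold polyHeight
  rw [← finsum_comp_equiv (placeEquiv e he)]
  refine finsum_congr fun w => ?_
  have h1 : (P.map (e : L →+* L')).support = P.support :=
    support_map_of_injective P e.injective
  rw [h1]
  congr 1
  refine Finset.sup_congr rfl fun I _ => ?_
  rw [coeff_map]
  exact placeEquiv_apply e he w (P.coeff I)

/-- **The points over arbitrary extensions.** -/
theorem exc_any {κ : Type u} {K : Type v} [Field κ] [IsAlgClosed κ]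
    [CharZero κ] [Field K] [CharZero K] [Algebra κ K] (hK : IsFF κ K)
    (hMY : MYP.{u, v} κ) {n a p m : ℕ} (b r₀ : ℕ) (hn : a + (m + 1) = n)
    {e : Fin a → ℕ} (he : ∀ i, 1 ≤ e i) (d : Fin p → ℕ) {θ ε : ℝ} (hε : 0 < ε)
    (hθ : θ + ε ≤ (∑ i, e i : ℕ) + (∑ j, d j : ℕ) - (n + 1)) :
    ∃ (N : ℕ) (Q : Finset (UPoly a p n m)),
      ∀ (L₀ : Type w') [Field L₀] [CharZero L₀] (F : Fin a → MvPolynomial (Fin (n + 1)) L₀)
        (H : Fin p → MvPolynomial (Fin (n + 1)) L₀), (∀ i, (F i).IsHomogeneous (e i)) →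
        (∀ j, (H j).IsHomogeneous (d j)) → (∀ i, ∃ I, (F i).coeff I = 1) →
        (∀ i, ∃ I, (H i).coeff I = 1) → NCAt F H (AlgebraicClosure L₀) →
      ∀ (L : Type w) [Field L] [Algebra L₀ L] [Algebra K L] [FiniteDimensional K L]
        [Algebra κ L] [IsScalarTower κ K L] (x : Fin (n + 1) → L) (l : Fin (n + 1)),
        x l = 1 → finrank K L ≤ r₀ → (∀ i, aeval x (F i) = 0) → (∀ j, aeval x (H j) ≠ 0) →
      ∀ (g : Fin m → MvPolynomial (Fin (n + 1)) L) (δ : Fin m → ℕ) (S : Finset (Place κ L))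
        (T : ℕ), (∀ i, (g i).IsHomogeneous (δ i)) → (∀ i, δ i ≤ b) →
        (∀ i, ∃ I, (g i).coeff I = 1) → (∀ i, eval x (g i) = 0) →
        LinearIndependent L (Sum.elim (fun i l => aeval x (pderiv l (F i)))
          (fun i l => eval x (pderiv l (g i))) : Fin a ⊕ Fin m → Fin (n + 1) → L) →
        1 ≤ T → (∀ i, polyHeight κ ((F i).map (algebraMap L₀ L)) ≤ (T : ℤ)) →
        (∀ i, polyHeight κ ((H i).map (algebraMap L₀ L)) ≤ (T : ℤ)) →
        (∀ i, polyHeight κ (g i) ≤ (T : ℤ)) →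
        (∀ w ∉ S, ∀ j, w.1 (aeval x (H j)) = vmax w.1 x ^ d j) →
        θ * height κ x ≤ (N : ℝ) * T + ramDeg κ L K + S.card ∨
          (1 ≤ m ∧ ∀ j : Fin (m + 1) → Fin (n + 1), ∃ q ∈ Q, spec (cfs F H) q ≠ 0 ∧
            aeval (fun i => x (j i)) (spec (cfs F H) q) = 0) := by
  classical
  have hcΩ : CharZero (AlgebraicClosure K) :=
    charZero_of_injective_algebraMap (algebraMap K (AlgebraicClosure K)).injective
  obtain ⟨N, Q, hNQ⟩ := exc_bad (Ω := AlgebraicClosure K) hK hMY b r₀ hn he d hε hθ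
  refine ⟨N, Q, ?_⟩
  intro L₀ _ _ F H hF hH hF1 hH1 hNC L _ _ _ _ _ _ x l hxl hr hFx hHx g δ S T hg hδ hg1 hgx hli
    hT1 hTF hTH hTg hS
  by_contra hcon
  rw [not_or, not_le] at hcon
  obtain ⟨hlarge, hexc⟩ := hcon
  apply hexc
  obtain ⟨E, hE, ee, heκ, hfr⟩ := exists_embedB κ K L
  have heK : ∀ c : K, (ee : L ≃+* E) (algebraMap K L c) = algebraMap K E c := fun c =>
    ee.commutes c
  have heκ' : ∀ c : κ, (ee : L ≃+* E) (algebraMap κ L c) = algebraMap κ E c := heκ
  obtain ⟨φ, hφ⟩ : ∃ φ : L →+* E, φ = ((ee : L ≃+* E) : L →+* E) := ⟨_, rfl⟩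
  have hφa : ∀ y, φ y = ee y := fun y => by rw [hφ]; rfl
  obtain ⟨ψ, hψ⟩ : ∃ ψ : L₀ →+* E, ψ = φ.comp (algebraMap L₀ L) := ⟨_, rfl⟩
  let iΩ : Algebra L₀ (AlgebraicClosure K) := ((algebraMap E (AlgebraicClosure K)).comp ψ).toAlgebra
  have hψΩ : ∀ u, algebraMap E (AlgebraicClosure K) (ψ u) =
      algebraMap L₀ (AlgebraicClosure K) u := fun _ => rfl
  -- values
  have hevL : ∀ (y : Fin (n + 1) → L) (P : MvPolynomial (Fin (n + 1)) L),
      eval (fun i => φ (y i)) (P.map φ) = φ (eval y P) := by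
    intro y P
    rw [eval_map]
    have h1 := (eval₂_comp_left φ (RingHom.id L) y P).symm
    rw [RingHom.comp_id] at h1
    exact h1
  have hmm : ∀ P : MvPolynomial (Fin (n + 1)) L₀, P.map ψ = (P.map (algebraMap L₀ L)).map φ := by
    intro P
    rw [map_map, hψ]
  have hev0 : ∀ (y : Fin (n + 1) → L) (P : MvPolynomial (Fin (n + 1)) L₀),
      eval (fun i => φ (y i)) (P.map ψ) = φ (aeval y P) := by
    intro y P
    rw [hmm, hevL, eval_map]
    rfl
  have hph : ∀ P : MvPolynomial (Fin (n + 1)) L, polyHeight κ (P.map φ) = polyHeight κ P := by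
    intro P
    rw [hφ]
    exact polyHeight_placeEquiv (ee : L ≃+* E) heκ' P
  have hheight : height κ (fun i => φ (x i)) = height κ x := by
    rw [hφ]
    exact height_placeEquiv (ee : L ≃+* E) heκ' x
  have hram : ramDeg κ E K = ramDeg κ L K := ramDeg_placeEquiv (ee : L ≃+* E) heκ' heK
  have hNC' : NCAt (fun i => (F i).map ψ) (fun j => (H j).map ψ) (AlgebraicClosure K) :=
    NCAt.mapHom ψ hψΩ (NCAt.transfer hF hH hNC)
  have hbad : Bad κ m e d b r₀ θ N l E (fun i => (F i).map ψ) (fun j => (H j).map ψ)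
      (fun i => φ (x i)) := by
    refine ⟨hE, by rw [hfr]; exact hr, fun i => (hF i).map _, fun j => (hH j).map _, fun i => ?_,
      fun j => ?_, hNC', ?_, fun i => ?_, fun j => ?_, fun i => (g i).map φ, δ,
      S.map (placeEquiv (ee : L ≃+* E) heκ').toEmbedding, T, fun i => (hg i).map _, hδ,
      fun i => ?_, fun i => ?_, ?_, hT1, fun i => ?_, fun i => ?_, fun i => ?_, ?_, ?_⟩
    · obtain ⟨I, hI⟩ := hF1 i
      exact ⟨I, by rw [coeff_map, hI, map_one]⟩
    · obtain ⟨I, hI⟩ := hH1 j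
      exact ⟨I, by rw [coeff_map, hI, map_one]⟩
    · show φ (x l) = 1
      rw [hxl, map_one]
    · rw [hev0, hFx, map_zero]
    · rw [hev0]
      exact (map_ne_zero φ).2 (hHx j)
    · obtain ⟨I, hI⟩ := hg1 i
      exact ⟨I, by rw [coeff_map, hI, map_one]⟩
    · rw [hevL, hgx, map_zero]
    · obtain ⟨c, hc⟩ := Pool.Agent.Lib.MP_44a246_ntN.exists_minor _ hli
      refine li_of_minor _ c fun h0 => hc ?_
      apply φ.injective
      rw [map_zero, RingHom.map_det, ← h0]
      congr 1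
      refine Matrix.ext fun r r' => ?_
      rcases r with i | i
      · show φ (aeval x (pderiv (c r') (F i))) = eval _ (pderiv (c r') ((F i).map ψ))
        rw [pderiv_map, hev0]
      · show φ (eval x (pderiv (c r') (g i))) = eval _ (pderiv (c r') ((g i).map φ))
        rw [pderiv_map, hevL]
    · show polyHeight κ ((F i).map ψ) ≤ _
      rw [hmm, hph]
      exact hTF i
    · show polyHeight κ ((H i).map ψ) ≤ _
      rw [hmm, hph]
      exact hTH i
    · show polyHeight κ ((g i).map φ) ≤ _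
      rw [hph]
      exact hTg i
    · intro w hw j
      obtain ⟨w', rfl⟩ := (placeEquiv (ee : L ≃+* E) heκ').surjective w
      have hw' : w' ∉ S := fun h => hw (Finset.mem_map.2 ⟨w', h, rfl⟩)
      have h1 := vmax_placeEquiv (ee : L ≃+* E) heκ' w' x
      have h2 := placeEquiv_apply (ee : L ≃+* E) heκ' w' (aeval x (H j))
      rw [hev0, hφa]
      refine (h2.trans (hS w' hw' j)).trans ?_
      rw [← h1, hφ]
      rfl
    · rw [hheight, hram, Finset.card_map]
      exact hlarge
  obtain ⟨hm1, hj⟩ := hNQ l E _ _ _ hbad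
  refine ⟨hm1, fun j => ?_⟩
  obtain ⟨q, hq, hq1, hq2⟩ := hj j
  have hcf : (fun s => algebraMap E (AlgebraicClosure K)
      (cfs (fun i => (F i).map ψ) (fun j => (H j).map ψ) s)) =
      fun s => algebraMap E (AlgebraicClosure K) (ψ (cfs F H s)) := by
    funext s
    obtain ⟨s, J⟩ := s
    rcases s with i | i
    · show algebraMap E (AlgebraicClosure K) (((F i).map ψ).coeff J) = _
      rw [coeff_map]
      rfl
    · show algebraMap E (AlgebraicClosure K) (((H i).map ψ).coeff J) = _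
      rw [coeff_map]
      rfl
  have hsp : spec (fun s => algebraMap E (AlgebraicClosure K)
      (cfs (fun i => (F i).map ψ) (fun j => (H j).map ψ) s)) q =
      ((spec (cfs F H) q).map ψ).map (algebraMap E (AlgebraicClosure K)) := by
    rw [map_map, map_spec, hcf]
    rfl
  rw [hsp] at hq1 hq2
  refine ⟨q, hq, fun h0 => hq1 (by rw [h0, map_zero, map_zero]), ?_⟩
  have h1 := eval_coe (Ω := AlgebraicClosure K) (fun i => φ (x (j i)))
    ((spec (cfs F H) q).map ψ)
  have h2 : algebraMap E (AlgebraicClosure K) (eval (fun i => φ (x (j i)))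
      ((spec (cfs F H) q).map ψ)) = 0 := h1.symm.trans hq2
  have h3 := (map_eq_zero _).1 h2
  have h4 : eval (fun i => φ (x (j i))) ((spec (cfs F H) q).map ψ) =
      φ (aeval (fun i => x (j i)) (spec (cfs F H) q)) := by
    rw [hψ, ← map_map, eval_map, aeval_def, ← eval_map (algebraMap L₀ L)]
    have h5 := (eval₂_comp_left φ (RingHom.id L) (fun i => x (j i))
      ((spec (cfs F H) q).map (algebraMap L₀ L))).symm
    rw [RingHom.comp_id] at h5
    exact h5
  rw [h4] at h3
  exact (map_eq_zero φ).1 h3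

end Pool.Agent.Lib.MP_44a246_ntNC
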