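import Mathlib
import Pool.Agent.Lib.MP_44a246_ntNC.NC12

/-!
# The set of the places of contact
-/

namespace Pool.Agent.Lib.MP_44a246_ntNC

open Pool.Agent.Lib.MP_e52354_nt
open Pool.Agent.Lib.MP_44a246_nt
open Pool.Agent.Lib.MP_44a246_ntL
open Pool.Agent.Lib.MP_44a246_ntS
open Pool.Agent.Lib.MP_44a246_ntSH
open Pool.Agent.Lib.MP_44a246_ntU (aeval_eq_Fval)
open WithZero MvPolynomial Module

/-- The truncated counting function of the forms `H i`: the number of the places `w` of `L`, not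
over the set `S` of places of `K`, with `|H i (x)| < |H i| |x| ^ (d i)` for some `i`, where `|H i|`
is the maximum of the absolute values of the coefficients of `H i`. -/
noncomputable def truncCountN (κ : Type*) {K L₀ L : Type*} [Field κ] [Field K] [Algebra κ K]
    [Field L₀] [Field L] [Algebra κ L] [Algebra K L] [Algebra L₀ L] {ι σ : Type*} [Fintype σ]
    (H : ι → MvPolynomial σ L₀) (d : ι → ℕ) (S : Set (Place κ K)) (x : σ → L) : ℕ :=
  Set.ncard {w : Place κ L | (∀ v ∈ S, ¬ (w.1.comap (algebraMap K L)).IsEquiv v.1) ∧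
    ∃ i, w.1 (aeval x (H i)) <
      ((H i).support.sup fun I => w.1 (algebraMap L₀ L ((H i).coeff I))) * vmax w.1 x ^ d i}

theorem sup_eq_nrm {L₀ L σ : Type*} [Field L₀] [Field L] [Algebra L₀ L] (v : Valuation L ℤᵐ⁰)
    (P : MvPolynomial σ L₀) : (P.support.sup fun I => v (algebraMap L₀ L (P.coeff I))) =
      nrm v (P.map (algebraMap L₀ L)) := by
  unfold nrm
  rw [support_map_of_injective P (algebraMap L₀ L).injective]
  refine Finset.sup_congr rfl fun I _ => ?_
  rw [coeff_map]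

/-- the bound for the value of a form -/
theorem eval_le_nrm {L : Type*} [Field L] (v : Valuation L ℤᵐ⁰) {n d : ℕ}
    {P : MvPolynomial (Fin (n + 1)) L} (hP : P.IsHomogeneous d) (x : Fin (n + 1) → L) :
    v (eval x P) ≤ nrm v P * vmax v x ^ d := by
  have h1 : eval x P = Fval d (fun I => algebraMap L L (P.coeff I)) x := by
    rw [← aeval_eq_Fval hP x]
    exact (RingHom.congr_fun (coe_aeval_eq_eval x) P).symm
  rw [h1]
  exact Fval_le v (fun I _ => le_nrm v P I) (fun j => le_vmax v x j)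

theorem nrm_C_mul {L σ : Type*} [Field L] (v : Valuation L ℤᵐ⁰) {c : L} (hc : c ≠ 0)
    (P : MvPolynomial σ L) : nrm v (C c * P) = v c * nrm v P := by
  classical
  have hs : (C c * P).support = P.support := by
    ext I
    rw [MvPolynomial.mem_support_iff, MvPolynomial.mem_support_iff, coeff_C_mul]
    exact ⟨fun h h0 => h (by rw [h0, mul_zero]), fun h => mul_ne_zero hc h⟩
  have hvc : v c ≠ 0 := (v.ne_zero_iff).2 hc
  unfold nrm
  rw [hs]
  apply le_antisymm
  · refine Finset.sup_le fun I hI => ?_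
    rw [coeff_C_mul, map_mul]
    exact mul_le_mul_right (Finset.le_sup (f := fun I => v (P.coeff I)) hI) _
  · rcases P.support.eq_empty_or_nonempty with h0 | h0
    · rw [h0, Finset.sup_empty, Finset.sup_empty]
      simp
    · obtain ⟨I, hI, hI2⟩ := Finset.exists_mem_eq_sup P.support h0 (fun I => v (P.coeff I))
      rw [hI2]
      refine le_trans (le_of_eq ?_) (Finset.le_sup (f := fun I => v ((C c * P).coeff I)) hI)
      show v c * v (P.coeff I) = v ((C c * P).coeff I)
      rw [coeff_C_mul, map_mul]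

/-- **The set of the places of contact.** -/
theorem exists_contact {κ K L : Type*} [Field κ] [IsAlgClosed κ] [CharZero κ] [Field K]
    [Algebra κ K] (hK : IsFF κ K) [Field L] [Algebra κ L] [Algebra K L] [IsScalarTower κ K L]
    [FiniteDimensional K L] {n p : ℕ} {d : Fin p → ℕ}
    {H : Fin p → MvPolynomial (Fin (n + 1)) L} (hH : ∀ j, (H j).IsHomogeneous (d j))
    (hH1 : ∀ j, ∃ I, (H j).coeff I = 1) {x : Fin (n + 1) → L} (hx : x ≠ 0)
    (hHx : ∀ j, eval x (H j) ≠ 0) {S : Set (Place κ K)} (hS : S.Finite) :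
    ∃ T : Finset (Place κ L), (∀ w ∉ T, ∀ j, w.1 (eval x (H j)) = vmax w.1 x ^ d j) ∧
      (T.card : ℤ) ≤ Set.ncard {w : Place κ L |
        (∀ v ∈ S, ¬ (w.1.comap (algebraMap K L)).IsEquiv v.1) ∧
        ∃ i, w.1 (eval x (H i)) < nrm w.1 (H i) * vmax w.1 x ^ d i} +
        S.ncard * finrank K L + ∑ j, polyHeight κ (H j) := by
  classical
  have hL : IsFF κ L := hK.of_finite
  obtain ⟨h1, h2⟩ := over_card hK hS (L := L)
  have hone : ∀ (w : Place κ L) j, 1 ≤ nrm w.1 (H j) := by
    intro w j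
    obtain ⟨I, hI⟩ := hH1 j
    have h3 := le_nrm w.1 (H j) I
    rwa [hI, map_one] at h3
  have h3 : ∀ j, ({w : Place κ L | 1 < nrm w.1 (H j)}.Finite ∧
      (({w : Place κ L | 1 < nrm w.1 (H j)}.ncard : ℕ) : ℤ) ≤ polyHeight κ (H j)) := by
    intro j
    obtain ⟨I, hI⟩ := hH1 j
    have hIs : I ∈ (H j).support := by
      rw [MvPolynomial.mem_support_iff, hI]
      exact one_ne_zero
    have h4 := ncard_coord_lt hL (z := fun I : (H j).support => (H j).coeff I.1)
      (i := ⟨I, hIs⟩) (by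
        show (H j).coeff I ≠ 0
        rw [hI]
        exact one_ne_zero)
    have h5 : {w : Place κ L | w.1 ((fun I : (H j).support => (H j).coeff I.1) ⟨I, hIs⟩) <
        vmax w.1 (fun I : (H j).support => (H j).coeff I.1)} =
        {w : Place κ L | 1 < nrm w.1 (H j)} := by
      ext w
      simp only [Set.mem_ofPred_eq]
      rw [hI, map_one, nrm_eq_vmax_coeff]
    rw [h5, ← polyHeight_eq_height] at h4
    exact h4
  obtain ⟨A1, hA1⟩ : ∃ A1 : Set (Place κ L), A1 = {w : Place κ L | below K w ∈ S} := ⟨_, rfl⟩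
  obtain ⟨A2, hA2⟩ : ∃ A2 : Set (Place κ L), A2 = {w : Place κ L |
        (∀ v ∈ S, ¬ (w.1.comap (algebraMap K L)).IsEquiv v.1) ∧
        ∃ i, w.1 (eval x (H i)) < nrm w.1 (H i) * vmax w.1 x ^ d i} := ⟨_, rfl⟩
  obtain ⟨A3, hA3⟩ : ∃ A3 : Set (Place κ L), A3 = ⋃ j, {w : Place κ L | 1 < nrm w.1 (H j)} :=
    ⟨_, rfl⟩
  rw [← hA1] at h1 h2
  rw [← hA2]
  have hA3f : A3.Finite := by
    rw [hA3]
    exact Set.finite_iUnion fun j => (h3 j).1
  have hA2f : A2.Finite := by
    have h4 : ((⋃ j, {w : Place κ L | w.1 (eval x (H j)) ≠ 1}) ∪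
        {w : Place κ L | vmax w.1 x ≠ 1} ∪ A3).Finite :=
      ((Set.finite_iUnion fun j => hL.place_finite (hHx j)).union (hL.vmax_finite hx)).union hA3f
    refine h4.subset fun w hw => ?_
    rw [hA2] at hw
    obtain ⟨-, i, hi⟩ := hw
    by_contra hcon
    simp only [Set.mem_union, Set.mem_iUnion, not_or, not_exists] at hcon
    obtain ⟨⟨k1, k2⟩, k3⟩ := hcon
    have k1' : w.1 (eval x (H i)) = 1 := by
      by_contra h
      exact k1 i h
    have k2' : vmax w.1 x = 1 := by
      by_contra h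
      exact k2 h
    have k3' : nrm w.1 (H i) = 1 := by
      refine le_antisymm ?_ (hone w i)
      by_contra h
      push Not at h
      apply k3
      rw [hA3]
      exact Set.mem_iUnion.2 ⟨i, h⟩
    rw [k1', k2', k3', one_pow, one_mul] at hi
    exact lt_irrefl _ hi
  have hA3c : ((A3.ncard : ℕ) : ℤ) ≤ ∑ j, polyHeight κ (H j) := by
    have h4 : A3.ncard ≤ ∑ j, {w : Place κ L | 1 < nrm w.1 (H j)}.ncard := by
      rw [hA3]
      exact Set.ncard_iUnion_le_of_fintype _
    refine (by exact_mod_cast h4 : ((A3.ncard : ℕ) : ℤ) ≤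
      ((∑ j, {w : Place κ L | 1 < nrm w.1 (H j)}.ncard : ℕ) : ℤ)).trans ?_
    rw [Nat.cast_sum]
    exact Finset.sum_le_sum fun j _ => (h3 j).2
  have hfin : (A2 ∪ A1 ∪ A3).Finite := (hA2f.union h1).union hA3f
  refine ⟨hfin.toFinset, fun w hw j => ?_, ?_⟩
  · rw [Set.Finite.mem_toFinset, Set.mem_union, Set.mem_union, not_or, not_or] at hw
    obtain ⟨⟨k2, k1⟩, k3⟩ := hw
    have k3' : nrm w.1 (H j) = 1 := by
      refine le_antisymm ?_ (hone w j)
      by_contra h
      push Not at h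
      apply k3
      rw [hA3]
      exact Set.mem_iUnion.2 ⟨j, h⟩
    have k4 := eval_le_nrm w.1 (hH j) x
    rw [k3', one_mul] at k4
    refine le_antisymm k4 ?_
    by_contra h
    push Not at h
    apply k2
    rw [hA2]
    refine ⟨fun v hv hvw => ?_, j, by rwa [k3', one_mul]⟩
    rw [below_equiv] at hvw
    apply k1
    rw [hA1]
    show below K w ∈ S
    rw [hvw]
    exact hv
  · rw [← Set.ncard_eq_toFinset_card _ hfin]
    have h4 : (A2 ∪ A1 ∪ A3).ncard ≤ A2.ncard + A1.ncard + A3.ncard :=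
      (Set.ncard_union_le _ _).trans (Nat.add_le_add_right (Set.ncard_union_le _ _) _)
    have h5 : (((A2 ∪ A1 ∪ A3).ncard : ℕ) : ℤ) ≤
        (A2.ncard : ℤ) + (A1.ncard : ℤ) + (A3.ncard : ℤ) := by exact_mod_cast h4
    linarith

end Pool.Agent.Lib.MP_44a246_ntNC
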