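import Mathlib
import Pool.Agent.Lib.MP_44a246_ntNC.NC13
import Pool.Agent.Lib.MP_44a246_ntD.D22

/-!
# Scaling, and the exceptional forms
-/

namespace Pool.Agent.Lib.MP_44a246_ntNC

open Pool.Agent.Lib.MP_e52354_nt
open Pool.Agent.Lib.MP_44a246_nt
open Pool.Agent.Lib.MP_44a246_ntL
open Pool.Agent.Lib.MP_44a246_ntS
open Pool.Agent.Lib.MP_44a246_ntSH
open WithZero MvPolynomial Module

/-! ### Homogenisation -/

/-- a polynomial in some of the affine coordinates as a form -/
noncomputable def homG {K : Type*} [Field K] {n p : ℕ} (g : MvPolynomial (Fin p) K)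
    (l : Fin n) (j : Fin p → Fin n) : MvPolynomial (Fin n) K :=
  ∑ u ∈ g.support, monomial (Finsupp.mapDomain j u + Finsupp.single l (g.totalDegree + 1 - u.degree))
    (g.coeff u)

theorem homG_hom {K : Type*} [Field K] {n p : ℕ} (g : MvPolynomial (Fin p) K)
    (l : Fin n) (j : Fin p → Fin n) : (homG g l j).IsHomogeneous (g.totalDegree + 1) := by
  refine IsHomogeneous.sum _ _ _ fun u hu => ?_
  refine isHomogeneous_monomial _ ?_
  have h1 : u.degree ≤ g.totalDegree := le_totalDegree hu
  have h2 : (Finsupp.mapDomain j u).degree = u.degree := by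
    rw [Finsupp.degree_mapDomain]
  simp only [map_add, h2, Finsupp.degree_single]
  omega

theorem homG_aeval {K L : Type*} [Field K] [Field L] [Algebra K L] {n p : ℕ}
    (g : MvPolynomial (Fin p) K) (l : Fin n) (j : Fin p → Fin n) (x : Fin n → L) :
    aeval x (homG g l j) = ∑ u ∈ g.support, algebraMap K L (g.coeff u) *
      ((∏ i, x (j i) ^ u i) * x l ^ (g.totalDegree + 1 - u.degree)) := by
  unfold homG
  rw [map_sum]
  refine Finset.sum_congr rfl fun u _ => ?_
  rw [aeval_monomial]
  congr 1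
  rw [Finsupp.prod_add_index' (fun _ => pow_zero _) (fun _ _ _ => pow_add _ _ _),
    Finsupp.prod_mapDomain_index (fun _ => pow_zero _) (fun _ _ _ => pow_add _ _ _),
    Finsupp.prod_single_index (h := fun i k => x i ^ k) (pow_zero _),
    Finsupp.prod_fintype _ _ (fun _ => pow_zero _)]

theorem homG_zero {K L : Type*} [Field K] [Field L] [Algebra K L] {n p : ℕ}
    (g : MvPolynomial (Fin p) K) (l : Fin n) (j : Fin p → Fin n) (x : Fin n → L) (hx : x l = 0) :
    aeval x (homG g l j) = 0 := by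
  rw [homG_aeval]
  refine Finset.sum_eq_zero fun u hu => ?_
  have h1 : u.degree ≤ g.totalDegree := le_totalDegree hu
  rw [hx, zero_pow (by omega), mul_zero, mul_zero]

theorem homG_val {K L : Type*} [Field K] [Field L] [Algebra K L] {n p : ℕ}
    (g : MvPolynomial (Fin p) K) (l : Fin n) (j : Fin p → Fin n) (x : Fin n → L) (hx : x l ≠ 0) :
    aeval x (homG g l j) = x l ^ (g.totalDegree + 1) * aeval (fun i => x (j i) / x l) g := by
  rw [homG_aeval, aeval_def, eval₂_eq', Finset.mul_sum]
  refine Finset.sum_congr rfl fun u hu => ?_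
  have h1 : u.degree ≤ g.totalDegree := le_totalDegree hu
  have h2 : ∏ i, (x (j i) / x l) ^ u i = (∏ i, x (j i) ^ u i) / x l ^ u.degree := by
    rw [Finsupp.degree_eq_sum, ← Finset.prod_pow_eq_pow_sum, ← Finset.prod_div_distrib]
    exact Finset.prod_congr rfl fun i _ => div_pow _ _ _
  rw [h2]
  have h3 : x l ^ (g.totalDegree + 1) =
      x l ^ (g.totalDegree + 1 - u.degree) * x l ^ u.degree := by
    rw [← pow_add]
    congr 1
    omega
  rw [h3]
  have h4 : x l ^ u.degree ≠ 0 := pow_ne_zero _ hx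
  field_simp

/-! ### Scaling -/

theorem eval_smul_form {A : Type*} [Field A] {N d : ℕ}
    {P : MvPolynomial (Fin N) A} (hP : P.IsHomogeneous d) (c : A) (z : Fin N → A) :
    eval (fun l => c * z l) P = c ^ d * eval z P := by
  have h1 := aeval_smul_form (A := A) hP c z
  rw [← RingHom.congr_fun (coe_aeval_eq_eval z) P,
    ← RingHom.congr_fun (coe_aeval_eq_eval (fun l => c * z l)) P]
  exact h1

/-- a nonzero polynomial has a multiple with a coefficient equal to one -/
theorem exists_nf {A σ : Type*} [Field A] (P : MvPolynomial σ A) :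
    ∃ c : A, c ≠ 0 ∧ (P ≠ 0 → ∃ I, (C c * P).coeff I = 1) := by
  by_cases hP : P = 0
  · exact ⟨1, one_ne_zero, fun h => absurd hP h⟩
  · obtain ⟨I, hI⟩ := MvPolynomial.ne_zero_iff.1 hP
    exact ⟨(P.coeff I)⁻¹, inv_ne_zero hI, fun _ => ⟨I, by
      rw [coeff_C_mul, inv_mul_cancel₀ hI]⟩⟩

theorem isHomogeneous_C_mul' {A : Type*} [Field A] {N d : ℕ} {P : MvPolynomial (Fin N) A}
    (hP : P.IsHomogeneous d) (c : A) : (C c * P).IsHomogeneous d := by
  have h1 := (isHomogeneous_C (Fin N) c).mul hP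
  rwa [zero_add] at h1

theorem NCAt.smul {K A : Type*} [Field K] [Field A] [Algebra K A] {N : ℕ} {ι Λ : Type*}
    {F : ι → MvPolynomial (Fin N) K} {H : Λ → MvPolynomial (Fin N) K} (h : NCAt F H A)
    {cF : ι → K} (hcF : ∀ i, cF i ≠ 0) {cH : Λ → K} (hcH : ∀ j, cH j ≠ 0) :
    NCAt (fun i => C (cF i) * F i) (fun j => C (cH j) * H j) A := by
  intro J z hz hF hH
  have hne : ∀ {c : K}, c ≠ 0 → algebraMap K A c ≠ 0 := fun hc => (map_ne_zero _).2 hc
  have h1 := h J z hz (fun i => by
    have h2 := hF i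
    rw [map_mul, aeval_C] at h2
    exact (mul_eq_zero.1 h2).resolve_left (hne (hcF i))) (fun j hj => by
    have h2 := hH j hj
    rw [map_mul, aeval_C] at h2
    exact (mul_eq_zero.1 h2).resolve_left (hne (hcH j)))
  have h2 := h1.units_smul (fun r : ι ⊕ J => Sum.elim (fun i => Units.mk0 _ (hne (hcF i)))
    (fun j : J => Units.mk0 _ (hne (hcH j))) r)
  convert h2 using 1
  funext s l
  rcases s with i | j
  · show aeval z (pderiv l (C (cF i) * F i)) = algebraMap K A (cF i) * _
    rw [pderiv_C_mul, map_mul, aeval_C]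
    rfl
  · show aeval z (pderiv l (C (cH j) * H j)) = algebraMap K A (cH j) * _
    rw [pderiv_C_mul, map_mul, aeval_C]
    rfl

/-- the height of a polynomial over an extension -/
theorem polyHeight_ext {κ L₀ L : Type*} [Field κ] [IsAlgClosed κ] [CharZero κ] [Field L₀]
    [Algebra κ L₀] (hL₀ : IsFF κ L₀) [Field L] [Algebra κ L] [Algebra L₀ L]
    [IsScalarTower κ L₀ L] [FiniteDimensional L₀ L] {σ : Type*} {P : MvPolynomial σ L₀}
    (hP : P ≠ 0) : polyHeight κ (P.map (algebraMap L₀ L)) = finrank L₀ L * polyHeight κ P := by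
  classical
  rw [polyHeight_eq_height P]
  have hne : (fun I : P.support => P.coeff I.1) ≠ 0 := by
    obtain ⟨I, hI⟩ := MvPolynomial.ne_zero_iff.1 hP
    intro h0
    exact hI (congrFun h0 ⟨I, MvPolynomial.mem_support_iff.2 hI⟩)
  have hL : IsFF κ L := hL₀.of_finite
  rw [← hL.height_ext (K := L₀) hne]
  show (∑ᶠ w : Place κ L, log (nrm w.1 (P.map (algebraMap L₀ L)))) = _
  unfold height
  refine finsum_congr fun w => ?_
  rw [← sup_eq_nrm]
  unfold vmax
  rw [Finset.univ_eq_attach, Finset.sup_attach P.support (fun I => w.1 (algebraMap L₀ L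
    (P.coeff I)))]

end Pool.Agent.Lib.MP_44a246_ntNC
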