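import Mathlib
import Pool.Agent.Lib.MP_44a246_ntNC.NC14

/-!
# Vojta's inequality for pairs with normal crossings, up to the height of a curve through the point
-/

namespace Pool.Agent.Lib.MP_44a246_ntNC

open Pool.Agent.Lib.MP_e52354_nt
open Pool.Agent.Lib.MP_44a246_nt
open Pool.Agent.Lib.MP_44a246_ntL
open Pool.Agent.Lib.MP_44a246_ntS
open Pool.Agent.Lib.MP_44a246_ntSH
open Pool.Agent.Lib.MP_44a246_ntMY
open Pool.Agent.Lib.MP_44a246_ntD (dim_excE)
open WithZero MvPolynomial Module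

universe u v w w'

/-- **Vojta's inequality for pairs with normal crossings**, up to the height of a curve of bounded
degree through the point. -/
theorem pair_main {κ : Type u} {K : Type v} [Field κ] [IsAlgClosed κ] [CharZero κ]
    [Field K] [CharZero K] [Algebra κ K] (hK : IsFF κ K) (hMY : MYP.{u, v} κ) {n a p m : ℕ}
    (hn : a + (m + 1) = n) {e : Fin a → ℕ} (he : ∀ i, 1 ≤ e i) (d : Fin p → ℕ) (r b : ℕ)
    {S : Set (Place κ K)} (hS : S.Finite) {ε : ℝ} (hε : 0 < ε) :
    ∃ C : ℕ, ∀ (L₀ : Type w') [Field L₀] [Algebra K L₀] [FiniteDimensional K L₀] [Algebra κ L₀]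
      [IsScalarTower κ K L₀] (F : Fin a → MvPolynomial (Fin (n + 1)) L₀)
      (H : Fin p → MvPolynomial (Fin (n + 1)) L₀), (∀ i, (F i).IsHomogeneous (e i)) →
      (∀ j, (H j).IsHomogeneous (d j)) → NCAt F H (AlgebraicClosure L₀) →
      ∃ (s : ℕ) (G : Fin s → MvPolynomial (Fin (n + 1)) L₀), s ≤ C ∧
        (∀ i, ∃ E ≤ C, (G i).IsHomogeneous E) ∧
        ringKrullDim (MvPolynomial (Fin (n + 1)) L₀ ⧸ Ideal.span (Set.range G)) ≤
          ((m + 1 : ℕ) : WithBot ℕ∞) ∧
        ∀ (L : Type w) [Field L] [Algebra K L] [Algebra L₀ L] [IsScalarTower K L₀ L]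
          [FiniteDimensional K L] [Algebra κ L] [IsScalarTower κ K L] (x : Fin (n + 1) → L),
          finrank K L ≤ r → x ≠ 0 → (∀ i, aeval x (F i) = 0) → (∀ j, aeval x (H j) ≠ 0) →
        ∀ (g : Fin m → MvPolynomial (Fin (n + 1)) L), (∀ i, ∃ δ ≤ b, (g i).IsHomogeneous δ) →
          (∀ i, eval x (g i) = 0) →
          LinearIndependent L (Sum.elim (fun i l => aeval x (pderiv l (F i)))
            (fun i l => eval x (pderiv l (g i))) : Fin a ⊕ Fin m → Fin (n + 1) → L) →
          ((∑ i, e i : ℕ) + (∑ j, d j : ℕ) - n - 1 - ε) * height κ x ≤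
              truncCountN κ H d S x + ramDeg κ L K +
                C * (1 + ∑ i, (polyHeight κ (F i) : ℝ) + ∑ j, (polyHeight κ (H j) : ℝ) +
                  ∑ i, (polyHeight κ (g i) : ℝ)) ∨
            (1 ≤ m ∧ ∀ i, aeval x (G i) = 0) := by
  classical
  obtain ⟨N, Q, hNQ⟩ := exc_any.{u, v, w, w'} hK hMY b r hn he d
    (θ := (∑ i, e i : ℕ) + (∑ j, d j : ℕ) - n - 1 - ε) hε (by linarith)
  obtain ⟨D, hD⟩ : ∃ D : ℕ, D = ∑ q ∈ Q, q.totalDegree + 1 := ⟨_, rfl⟩
  obtain ⟨C₁, hC₁⟩ : ∃ C₁ : ℕ, C₁ = (N + 1) * (r + 1) + S.ncard * r := ⟨_, rfl⟩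
  let eq := Fintype.equivFin (Fin (n + 1) × (Fin (m + 1) → Fin (n + 1)))
  refine ⟨C₁ + D + Fintype.card (Fin (n + 1) × (Fin (m + 1) → Fin (n + 1))), ?_⟩
  intro L₀ _ _ _ _ _ F H hF hH hNC
  have hc₀ : CharZero L₀ := charZero_of_injective_algebraMap (algebraMap K L₀).injective
  choose cF hcF hcF1 using fun i => exists_nf (F i)
  choose cH hcH hcH1 using fun i => exists_nf (H i)
  obtain ⟨F', hF'⟩ : ∃ F' : Fin a → MvPolynomial (Fin (n + 1)) L₀,
      F' = fun i => C (cF i) * F i := ⟨_, rfl⟩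
  obtain ⟨H', hH'⟩ : ∃ H' : Fin p → MvPolynomial (Fin (n + 1)) L₀,
      H' = fun i => C (cH i) * H i := ⟨_, rfl⟩
  have hF'h : ∀ i, (F' i).IsHomogeneous (e i) := fun i => by
    rw [hF']
    exact isHomogeneous_C_mul' (hF i) _
  have hH'h : ∀ i, (H' i).IsHomogeneous (d i) := fun i => by
    rw [hH']
    exact isHomogeneous_C_mul' (hH i) _
  have hNC' : NCAt F' H' (AlgebraicClosure L₀) := by
    rw [hF', hH']
    exact hNC.smul hcF hcH
  -- the polynomial
  obtain ⟨h, hh⟩ : ∃ h : MvPolynomial (Fin (m + 1)) L₀,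
      h = ∏ q ∈ Q.filter (fun q => spec (cfs F' H') q ≠ 0), spec (cfs F' H') q := ⟨_, rfl⟩
  have hh0 : h ≠ 0 := by
    rw [hh]
    exact Finset.prod_ne_zero_iff.2 fun q hq => (Finset.mem_filter.1 hq).2
  have hhd : h.totalDegree + 1 ≤ D := by
    rw [hD, hh]
    refine Nat.add_le_add_right ?_ 1
    refine (totalDegree_finsetProd _ _).trans ?_
    refine (Finset.sum_le_sum (g := fun q => q.totalDegree) fun q _ => ?_).trans
      (Finset.sum_le_sum_of_subset (Finset.filter_subset _ _))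
    exact Finset.sup_mono (support_map_subset _ _)
  refine ⟨_, fun i => homG h (eq.symm i).1 (eq.symm i).2, by omega,
    fun i => ⟨h.totalDegree + 1, by omega, homG_hom _ _ _⟩, ?_, ?_⟩
  · refine dim_excE (g := fun _ _ => h) (fun _ _ => hh0) (E := fun _ _ => h.totalDegree + 1)
      (G := fun l j => homG h l j) (fun l j L _ _ x hx => homG_val h l j x hx) ?_
    intro l j
    refine Ideal.subset_span ⟨eq (l, j), ?_⟩
    simp only [Equiv.symm_apply_apply]
  intro L _ _ _ _ _ _ _ x hr hx hFx hHx g hg hgx hli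
  -- the fields
  have hL : IsFF κ L := hK.of_finite
  have hL₀ : IsFF κ L₀ := hK.of_finite
  have t1 : IsScalarTower κ L₀ L := IsScalarTower.of_algebraMap_eq fun c => by
    rw [IsScalarTower.algebraMap_apply κ K L, IsScalarTower.algebraMap_apply K L₀ L,
      ← IsScalarTower.algebraMap_apply κ K L₀]
  have f1 : FiniteDimensional L₀ L := FiniteDimensional.right K L₀ L
  have hfr : finrank L₀ L ≤ r := by
    have h1 : finrank K L₀ * finrank L₀ L = finrank K L := finrank_mul_finrank K L₀ L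
    have h2 : 0 < finrank K L₀ := finrank_pos
    exact (Nat.le_mul_of_pos_left _ h2).trans (h1.le.trans hr)
  -- the forms are not zero
  have hF0 : ∀ i, F i ≠ 0 := by
    intro i h0
    apply hli.ne_zero (Sum.inl i)
    funext l
    rw [Sum.elim_inl, h0, map_zero, map_zero]
    rfl
  have hg0 : ∀ i, g i ≠ 0 := by
    intro i h0
    apply hli.ne_zero (Sum.inr i)
    funext l
    rw [Sum.elim_inr, h0, map_zero, map_zero]
    rfl
  have hH0 : ∀ j, H j ≠ 0 := fun j h0 => hHx j (by rw [h0, map_zero])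
  choose δ hδ hgh using hg
  choose cg hcg hcg1 using fun i => exists_nf (g i)
  obtain ⟨g', hg'⟩ : ∃ g' : Fin m → MvPolynomial (Fin (n + 1)) L,
      g' = fun i => C (cg i) * g i := ⟨_, rfl⟩
  -- the heights
  have hpF : ∀ i, 0 ≤ polyHeight κ (F i) := fun i => polyHeight_nonneg hL₀ (hF0 i)
  have hpH : ∀ i, 0 ≤ polyHeight κ (H i) := fun i => polyHeight_nonneg hL₀ (hH0 i)
  have hpg : ∀ i, 0 ≤ polyHeight κ (g i) := fun i => polyHeight_nonneg hL (hg0 i)
  have hF'p : ∀ i, polyHeight κ ((F' i).map (algebraMap L₀ L)) ≤ r * polyHeight κ (F i) := by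
    intro i
    have h1 : F' i ≠ 0 := by
      rw [hF']
      exact mul_ne_zero (fun h0 => hcF i (C_eq_zero.1 h0)) (hF0 i)
    rw [polyHeight_ext hL₀ h1, hF', polyHeight_smul hL₀ (hF0 i) (hcF i)]
    exact mul_le_mul_of_nonneg_right (by exact_mod_cast hfr) (hpF i)
  have hH'p : ∀ i, polyHeight κ ((H' i).map (algebraMap L₀ L)) ≤ r * polyHeight κ (H i) := by
    intro i
    have h1 : H' i ≠ 0 := by
      rw [hH']
      exact mul_ne_zero (fun h0 => hcH i (C_eq_zero.1 h0)) (hH0 i)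
    rw [polyHeight_ext hL₀ h1, hH', polyHeight_smul hL₀ (hH0 i) (hcH i)]
    exact mul_le_mul_of_nonneg_right (by exact_mod_cast hfr) (hpH i)
  obtain ⟨sF, hsF⟩ : ∃ sF : ℤ, sF = ∑ i, polyHeight κ (F i) := ⟨_, rfl⟩
  obtain ⟨sH, hsH⟩ : ∃ sH : ℤ, sH = ∑ i, polyHeight κ (H i) := ⟨_, rfl⟩
  obtain ⟨sg, hsg⟩ : ∃ sg : ℤ, sg = ∑ i, polyHeight κ (g i) := ⟨_, rfl⟩
  have hsF0 : 0 ≤ sF := by rw [hsF]; exact Finset.sum_nonneg fun i _ => hpF i
  have hsH0 : 0 ≤ sH := by rw [hsH]; exact Finset.sum_nonneg fun i _ => hpH i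
  have hsg0 : 0 ≤ sg := by rw [hsg]; exact Finset.sum_nonneg fun i _ => hpg i
  have hr0 : (0 : ℤ) ≤ r := Int.natCast_nonneg _
  have hsFi : ∀ i, polyHeight κ (F i) ≤ sF := fun i => by
    rw [hsF]
    exact Finset.single_le_sum (f := fun i => polyHeight κ (F i)) (fun i _ => hpF i)
      (Finset.mem_univ i)
  have hsHi : ∀ i, polyHeight κ (H i) ≤ sH := fun i => by
    rw [hsH]
    exact Finset.single_le_sum (f := fun i => polyHeight κ (H i)) (fun i _ => hpH i)
      (Finset.mem_univ i)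
  have hsgi : ∀ i, polyHeight κ (g i) ≤ sg := fun i => by
    rw [hsg]
    exact Finset.single_le_sum (f := fun i => polyHeight κ (g i)) (fun i _ => hpg i)
      (Finset.mem_univ i)
  obtain ⟨T, hT⟩ : ∃ T : ℕ, (T : ℤ) = 1 + r * sF + r * sH + sg := by
    refine ⟨(1 + r * sF + r * sH + sg).toNat, Int.toNat_of_nonneg ?_⟩
    have h1 := mul_nonneg hr0 hsF0
    have h2 := mul_nonneg hr0 hsH0
    linarith
  have hT1 : 1 ≤ T := by
    have h1 := mul_nonneg hr0 hsF0
    have h2 := mul_nonneg hr0 hsH0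
    have h3 : (1 : ℤ) ≤ T := by linarith
    exact_mod_cast h3
  -- the inequality fails
  by_cases hcase : ((∑ i, e i : ℕ) + (∑ j, d j : ℕ) - n - 1 - ε) * height κ x ≤
      truncCountN κ H d S x + ramDeg κ L K +
        ((C₁ + D + Fintype.card (Fin (n + 1) × (Fin (m + 1) → Fin (n + 1))) : ℕ) : ℝ) *
        (1 + ∑ i, (polyHeight κ (F i) : ℝ) + ∑ j, (polyHeight κ (H j) : ℝ) +
          ∑ i, (polyHeight κ (g i) : ℝ))
  · exact Or.inl hcase
  right
  push Not at hcase
  have key : ∀ l, x l ≠ 0 → 1 ≤ m ∧ ∀ j : Fin (m + 1) → Fin (n + 1), ∃ q ∈ Q,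
      spec (cfs F' H') q ≠ 0 ∧ aeval (fun i => (x l)⁻¹ * x (j i)) (spec (cfs F' H') q) = 0 := by
    intro l hl
    obtain ⟨x', hx'⟩ : ∃ x' : Fin (n + 1) → L, x' = fun i => (x l)⁻¹ * x i := ⟨_, rfl⟩
    have hu : (x l)⁻¹ ≠ 0 := inv_ne_zero hl
    have hx'l : x' l = 1 := by rw [hx']; exact inv_mul_cancel₀ hl
    have hx'0 : x' ≠ 0 := fun h0 => one_ne_zero (hx'l.symm.trans (congrFun h0 l))
    have hF'x : ∀ i, aeval x' (F' i) = 0 := by
      intro i
      rw [hF', map_mul, hx', aeval_smul_form (hF i), hFx, mul_zero, mul_zero]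
    have hH'v : ∀ i, aeval x' (H' i) =
        algebraMap L₀ L (cH i) * (x l)⁻¹ ^ d i * aeval x (H i) := by
      intro i
      rw [hH', map_mul, hx', aeval_smul_form (hH i), aeval_C, mul_assoc]
    have hcHL : ∀ i, algebraMap L₀ L (cH i) ≠ 0 := fun i => (map_ne_zero _).2 (hcH i)
    have hcFL : ∀ i, algebraMap L₀ L (cF i) ≠ 0 := fun i => (map_ne_zero _).2 (hcF i)
    have hH'x : ∀ i, aeval x' (H' i) ≠ 0 := by
      intro i
      rw [hH'v]
      exact mul_ne_zero (mul_ne_zero (hcHL i) (pow_ne_zero _ hu)) (hHx i)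
    have hg'x : ∀ i, eval x' (g' i) = 0 := by
      intro i
      rw [hg', map_mul, hx', eval_smul_form (hgh i), hgx, mul_zero, mul_zero]
    have hli' : LinearIndependent L (Sum.elim (fun i l => aeval x' (pderiv l (F' i)))
        (fun i l => eval x' (pderiv l (g' i))) : Fin a ⊕ Fin m → Fin (n + 1) → L) := by
      have h2 := hli.units_smul (fun s : Fin a ⊕ Fin m => Sum.elim
        (fun i => Units.mk0 (algebraMap L₀ L (cF i) * (x l)⁻¹ ^ (e i - 1))
          (mul_ne_zero (hcFL i) (pow_ne_zero _ hu)))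
        (fun i => Units.mk0 (cg i * (x l)⁻¹ ^ (δ i - 1))
          (mul_ne_zero (hcg i) (pow_ne_zero _ hu))) s)
      convert h2 using 1
      funext s k
      rcases s with i | i
      · show aeval x' (pderiv k (F' i)) = algebraMap L₀ L (cF i) * (x l)⁻¹ ^ (e i - 1) *
          aeval x (pderiv k (F i))
        rw [hF', pderiv_C_mul, map_mul, aeval_C, hx', aeval_smul_form (hF i).pderiv, mul_assoc]
      · show eval x' (pderiv k (g' i)) = cg i * (x l)⁻¹ ^ (δ i - 1) *
          eval x (pderiv k (g i))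
        rw [hg', pderiv_C_mul, map_mul, eval_C, hx', eval_smul_form (hgh i).pderiv, mul_assoc]
    have hH'L : ∀ j, eval x' ((H' j).map (algebraMap L₀ L)) = aeval x' (H' j) := by
      intro j
      rw [eval_map]
      rfl
    -- the places of contact
    obtain ⟨T', hT'1, hT'2⟩ := exists_contact hK (H := fun j => (H' j).map (algebraMap L₀ L))
      (d := d) (fun j => (hH'h j).map _) (fun j => by
        obtain ⟨I, hI⟩ := hcH1 j (hH0 j)
        refine ⟨I, ?_⟩
        rw [coeff_map, hH', hI, map_one]) hx'0 (fun j => by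
        rw [hH'L]
        exact hH'x j) hS
    have hset : {w : Place κ L | (∀ v ∈ S, ¬ (w.1.comap (algebraMap K L)).IsEquiv v.1) ∧
        ∃ i, w.1 (eval x' ((H' i).map (algebraMap L₀ L))) <
          nrm w.1 ((H' i).map (algebraMap L₀ L)) * vmax w.1 x' ^ d i} =
        {w : Place κ L | (∀ v ∈ S, ¬ (w.1.comap (algebraMap K L)).IsEquiv v.1) ∧
          ∃ i, w.1 (aeval x (H i)) < ((H i).support.sup
            fun I => w.1 (algebraMap L₀ L ((H i).coeff I))) * vmax w.1 x ^ d i} := by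
      ext w
      simp only [Set.mem_ofPred_eq]
      refine and_congr_right fun _ => exists_congr fun i => ?_
      have h1 : (H' i).map (algebraMap L₀ L) =
          C (algebraMap L₀ L (cH i)) * (H i).map (algebraMap L₀ L) := by
        rw [hH', map_mul, map_C]
      rw [hH'L, hH'v, sup_eq_nrm, h1, nrm_C_mul w.1 (hcHL i), hx', vmax_smul, mul_pow, map_mul,
        map_mul, map_pow]
      have h2 : w.1 (algebraMap L₀ L (cH i)) ≠ 0 := (w.1.ne_zero_iff).2 (hcHL i)
      have h3 : w.1 (x l)⁻¹ ^ d i ≠ 0 := pow_ne_zero _ ((w.1.ne_zero_iff).2 hu)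
      have h4 : w.1 (algebraMap L₀ L (cH i)) * nrm w.1 ((H i).map (algebraMap L₀ L)) *
          (w.1 (x l)⁻¹ ^ d i * vmax w.1 x ^ d i) =
          w.1 (algebraMap L₀ L (cH i)) * w.1 (x l)⁻¹ ^ d i *
            (nrm w.1 ((H i).map (algebraMap L₀ L)) * vmax w.1 x ^ d i) :=
        mul_mul_mul_comm _ _ _ _
      rw [h4]
      exact mul_lt_mul_iff_right₀ (zero_lt_iff.2 (mul_ne_zero h2 h3))
    rw [hset] at hT'2
    have hT'3 : (T'.card : ℤ) ≤ truncCountN κ H d S x + S.ncard * r + r * sH := by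
      refine hT'2.trans ?_
      have h1 : (S.ncard : ℤ) * finrank K L ≤ S.ncard * r :=
        mul_le_mul_of_nonneg_left (by exact_mod_cast hr) (Int.natCast_nonneg _)
      have h2 : ∑ j, polyHeight κ ((H' j).map (algebraMap L₀ L)) ≤ r * sH := by
        rw [hsH, Finset.mul_sum]
        exact Finset.sum_le_sum fun j _ => hH'p j
      exact add_le_add (add_le_add le_rfl h1) h2
    rcases hNQ L₀ F' H' hF'h hH'h (fun i => by
        rw [hF']
        exact hcF1 i (hF0 i)) (fun i => by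
        rw [hH']
        exact hcH1 i (hH0 i)) hNC' L x' l hx'l hr hF'x hH'x g' δ T' T (fun i => by
        rw [hg']
        exact isHomogeneous_C_mul' (hgh i) _) hδ (fun i => by
        rw [hg']
        exact hcg1 i (hg0 i)) hg'x hli' hT1 (fun i => (hF'p i).trans (by
        rw [hT]
        have h1 := mul_le_mul_of_nonneg_left (hsFi i) hr0
        have h2 := mul_nonneg hr0 hsH0
        linarith)) (fun i => (hH'p i).trans (by
        rw [hT]
        have h1 := mul_le_mul_of_nonneg_left (hsHi i) hr0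
        have h2 := mul_nonneg hr0 hsF0
        linarith)) (fun i => by
        rw [hg', polyHeight_smul hL (hg0 i) (hcg i), hT]
        have h1 := hsgi i
        have h2 := mul_nonneg hr0 hsF0
        have h3 := mul_nonneg hr0 hsH0
        linarith) (fun w hw j => by
        rw [← hH'L]
        exact hT'1 w hw j) with h1 | h1
    · exfalso
      have h2 : height κ x' = height κ x := by
        rw [hx']
        exact hL.height_smul hu
      rw [h2] at h1
      have hTR : (T : ℝ) = 1 + r * sF + r * sH + sg := by exact_mod_cast hT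
      have hT'R : (T'.card : ℝ) ≤ truncCountN κ H d S x + S.ncard * r + r * sH := by
        exact_mod_cast hT'3
      have eF : ∑ i, (polyHeight κ (F i) : ℝ) = sF := by rw [hsF]; push_cast; rfl
      have eH : ∑ i, (polyHeight κ (H i) : ℝ) = sH := by rw [hsH]; push_cast; rfl
      have eg : ∑ i, (polyHeight κ (g i) : ℝ) = sg := by rw [hsg]; push_cast; rfl
      rw [eF, eH, eg] at hcase
      have zF : (0 : ℝ) ≤ sF := by exact_mod_cast hsF0
      have zH : (0 : ℝ) ≤ sH := by exact_mod_cast hsH0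
      have zg : (0 : ℝ) ≤ sg := by exact_mod_cast hsg0
      have hC1R : (C₁ : ℝ) = (N + 1) * (r + 1) + S.ncard * r := by
        rw [hC₁]
        push_cast
        ring
      have k1 : (N : ℝ) * T + T'.card ≤ truncCountN κ H d S x + C₁ * (1 + sF + sH + sg) := by
        rw [hTR, hC1R]
        have z1 : (0 : ℝ) ≤ N := Nat.cast_nonneg _
        have z2 : (0 : ℝ) ≤ r := Nat.cast_nonneg _
        have z3 : (0 : ℝ) ≤ S.ncard := Nat.cast_nonneg _
        have y1 : (0 : ℝ) ≤ N * r := mul_nonneg z1 z2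
        have y2 : (0 : ℝ) ≤ S.ncard * r := mul_nonneg z3 z2
        have w1 := mul_nonneg y1 zg
        have w2 := mul_nonneg y2 zF
        have w3 := mul_nonneg y2 zH
        have w4 := mul_nonneg y2 zg
        have w5 := mul_nonneg z1 zF
        have w6 := mul_nonneg z1 zH
        have w7 := mul_nonneg z2 zF
        have w8 := mul_nonneg z2 zg
        have w9 := mul_nonneg z2 zH
        nlinarith
      have k2 : (C₁ : ℝ) * (1 + sF + sH + sg) ≤
          ((C₁ + D + Fintype.card (Fin (n + 1) × (Fin (m + 1) → Fin (n + 1))) : ℕ) : ℝ) *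
            (1 + sF + sH + sg) := by
        refine mul_le_mul_of_nonneg_right ?_ (by linarith)
        have h3 : C₁ ≤ C₁ + D + Fintype.card (Fin (n + 1) × (Fin (m + 1) → Fin (n + 1))) := by
          omega
        exact_mod_cast h3
      linarith
    · refine ⟨h1.1, fun j => ?_⟩
      obtain ⟨q, hq1, hq2, hq3⟩ := h1.2 j
      refine ⟨q, hq1, hq2, ?_⟩
      rw [hx'] at hq3
      exact hq3
  obtain ⟨l₀, hl₀⟩ : ∃ l, x l ≠ 0 := by
    by_contra hcon
    push Not at hcon
    exact hx (funext hcon)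
  refine ⟨(key l₀ hl₀).1, fun i => ?_⟩
  obtain ⟨⟨l, j⟩, ht⟩ : ∃ t, t = eq.symm i := ⟨_, rfl⟩
  show aeval x (homG h (eq.symm i).1 (eq.symm i).2) = 0
  rw [← ht]
  by_cases hl : x l = 0
  · exact homG_zero h l j x hl
  · rw [homG_val h l j x hl]
    obtain ⟨q, hq1, hq2, hq3⟩ := (key l hl).2 j
    have h1 : (fun i => x (j i) / x l) = fun i => (x l)⁻¹ * x (j i) :=
      funext fun i => div_eq_inv_mul _ _
    rw [h1, hh, map_prod]
    exact mul_eq_zero_of_right _ (Finset.prod_eq_zero (Finset.mem_filter.2 ⟨hq1, hq2⟩) hq3)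

end Pool.Agent.Lib.MP_44a246_ntNC
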