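import Mathlib
import Pool.Agent.Lib.MP_44a246_ntNC.NC15
import Pool.Agent.Lib.MP_44a246_ntMB.MB70

/-!
# Vojta's inequality for pairs with normal crossings, up to the height of a curve through the point
-/

namespace Pool.Agent.Lib.MP_44a246_ntNC

open Pool.Agent.Lib.MP_e52354_nt
open Pool.Agent.Lib.MP_44a246_nt
open Pool.Agent.Lib.MP_44a246_ntL
open MvPolynomial Module

universe u v w w'

/-- **Vojta's inequality for pairs with normal crossings**, up to the height of a curve of bounded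
degree through the point. -/
theorem pair_final {κ : Type u} {K : Type v} [Field κ] [IsAlgClosed κ] [CharZero κ]
    [Field K] [CharZero K] [Algebra κ K] {t : K} (ht : Transcendental κ t)
    (hfin : FiniteDimensional (IntermediateField.adjoin κ {t}) K) {n a p m : ℕ}
    (hn : a + (m + 1) = n) {e : Fin a → ℕ} (he : ∀ i, 1 ≤ e i) (d : Fin p → ℕ) (r b : ℕ)
    {S : Set (Place κ K)} (hS : S.Finite) {ε : ℝ} (hε : 0 < ε) :
    ∃ C : ℕ, ∀ (L₀ : Type w') [Field L₀] [Algebra K L₀] [FiniteDimensional K L₀] [Algebra κ L₀]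
      [IsScalarTower κ K L₀] (F : Fin a → MvPolynomial (Fin (n + 1)) L₀)
      (H : Fin p → MvPolynomial (Fin (n + 1)) L₀), (∀ i, (F i).IsHomogeneous (e i)) →
      (∀ j, (H j).IsHomogeneous (d j)) → NCAt F H (AlgebraicClosure L₀) →
      ∃ (s : ℕ) (G : Fin s → MvPolynomial (Fin (n + 1)) L₀), s ≤ C ∧
        (∀ i, ∃ E ≤ C, (G i).IsHomogeneous E) ∧
        ringKrullDim (MvPolynomial (Fin (n + 1)) L₀ ⧸ Ideal.span (Set.range G)) ≤
          ((m + 1 : ℕ) : WithBot ℕ∞) ∧
        ∀ (L : Type w) [Field L] [Algebra K L] [Algebra L₀ L] [IsScalarTower K L₀ L]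
          [FiniteDimensional K L] [Algebra κ L] [IsScalarTower κ K L] (x : Fin (n + 1) → L),
          finrank K L ≤ r → x ≠ 0 → (∀ i, aeval x (F i) = 0) → (∀ j, aeval x (H j) ≠ 0) →
        ∀ (g : Fin m → MvPolynomial (Fin (n + 1)) L), (∀ i, ∃ δ ≤ b, (g i).IsHomogeneous δ) →
          (∀ i, eval x (g i) = 0) →
          LinearIndependent L (Sum.elim (fun i l => aeval x (pderiv l (F i)))
            (fun i l => eval x (pderiv l (g i))) : Fin a ⊕ Fin m → Fin (n + 1) → L) →
          ((∑ i, e i : ℕ) + (∑ j, d j : ℕ) - n - 1 - ε) * height κ x ≤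
              truncCountN κ H d S x + ramDeg κ L K +
                C * (1 + ∑ i, (polyHeight κ (F i) : ℝ) + ∑ j, (polyHeight κ (H j) : ℝ) +
                  ∑ i, (polyHeight κ (g i) : ℝ)) ∨
            (1 ≤ m ∧ ∀ i, aeval x (G i) = 0) :=
  pair_main.{u, v, w, w'} ⟨t, ht, hfin⟩ (Pool.Agent.Lib.MP_44a246_ntMB.myp κ) hn he d r b hS hε

end Pool.Agent.Lib.MP_44a246_ntNC
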